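import Pool.Agent.L7h20.GP.Basic

/-!
# `S_BASE` (project GP): change of the sequence in a Koszul complex
-/

set_option autoImplicit false

namespace Pool.Agent.L7h20.GP

open ExteriorAlgebra Pool.Agent.L7h93.GP

variable {P : Type} [CommRing P] {m : ℕ}

theorem map_mem (α : (Fin m → P) →ₗ[P] (Fin m → P)) (k : ℕ) : ∀ x ∈ ⋀[P]^k (Fin m → P),
    ExteriorAlgebra.map α x ∈ ⋀[P]^k (Fin m → P) := by
  induction k with
  | zero =>
    intro x hx
    obtain ⟨r, rfl⟩ := mem_zero_iff x hx
    rw [map_smul, map_one]
    exact Submodule.smul_mem _ _ one_mem'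
  | succ k ih =>
    refine ind k _ ?_ ?_ ?_
    · rw [map_zero]; exact zero_mem _
    · intro x y hx hy; rw [map_add]; exact add_mem hx hy
    · intro v x hx
      rw [map_mul, map_apply_ι]
      exact ι_mul_mem k _ _ (ih x hx)

theorem d_map (α : (Fin m → P) →ₗ[P] (Fin m → P)) (d : Module.Dual P (Fin m → P)) (x : EA P m) :
    CliffordAlgebra.contractLeft d (ExteriorAlgebra.map α x) =
      ExteriorAlgebra.map α (CliffordAlgebra.contractLeft (d ∘ₗ α) x) := by
  induction x using CliffordAlgebra.left_induction with
  | algebraMap r =>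
    have h1 : ExteriorAlgebra.map α (algebraMap P (CliffordAlgebra (0 : QuadraticForm P (Fin m → P))) r) =
        algebraMap P _ r := (ExteriorAlgebra.map α).commutes r
    rw [h1, CliffordAlgebra.contractLeft_algebraMap, CliffordAlgebra.contractLeft_algebraMap, map_zero]
  | add a b ha hb => rw [map_add, map_add, ha, hb, map_add, map_add]
  | ι_mul a v ha =>
    have e : (CliffordAlgebra.ι (0 : QuadraticForm P (Fin m → P))) v = ι P v := rfl
    rw [e, map_mul, map_apply_ι, d_ι_mul, d_ι_mul, ha, map_sub, map_smul, map_mul, map_apply_ι]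
    rfl

theorem map_vol (A : Matrix (Fin m) (Fin m) P) :
    ExteriorAlgebra.map (Matrix.toLin' A) (vol P m) = A.det • vol P m := by
  rw [vol, map_apply_ιMulti]
  have key : ∀ v : Fin m → Fin m → P, ιMulti P m v = (Matrix.of v).det • ιMulti P m (fun i => (Pi.single i 1 : Fin m → P)) := by
    intro v
    have hA : (ιMulti P m : (Fin m → P) [⋀^Fin m]→ₗ[P] EA P m) =
        (LinearMap.toSpanSingleton P (EA P m) (ιMulti P m (fun i => (Pi.single i 1 : Fin m → P)))).compAlternatingMap
          Matrix.detRowAlternating := by
      refine Module.Basis.ext_alternating (Pi.basisFun P (Fin m)) fun w hw => ?_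
      have hb : Function.Bijective w := Finite.injective_iff_bijective.1 hw
      set σ := Equiv.ofBijective w hb with hσ
      have e1 : (fun i => (Pi.basisFun P (Fin m)) (w i)) = (fun i => (Pi.single i 1 : Fin m → P)) ∘ σ := by
        funext i; simp [hσ]
      rw [e1, AlternatingMap.map_perm]
      simp only [LinearMap.compAlternatingMap_apply, LinearMap.toSpanSingleton_apply]
      rw [AlternatingMap.map_perm]
      have : (Matrix.detRowAlternating fun i => (Pi.single i 1 : Fin m → P)) = (1 : P) := by
        change Matrix.det (fun i => (Pi.single i 1 : Fin m → P)) = 1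
        have : (fun i => (Pi.single i 1 : Fin m → P)) = (1 : Matrix (Fin m) (Fin m) P) := by
          ext i j; simp [Matrix.one_apply, Pi.single_apply, eq_comm]
        rw [this, Matrix.det_one]
      rw [this]
      rcases Int.units_eq_one_or (Equiv.Perm.sign σ) with h | h <;> simp [h]
    exact congrArg (fun F : (Fin m → P) [⋀^Fin m]→ₗ[P] EA P m => F v) hA
  rw [key]
  congr 1
  rw [← Matrix.det_transpose]
  congr 1
  ext i j
  simp

theorem s_BASE : S_BASE := by
  intro P _ m x q hx
  have h1 : ∀ i, ∃ c : Fin m → P, ∑ j, c j * q j = x i := fun i => by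
    obtain ⟨c, hc⟩ := Submodule.mem_span_range_iff_exists_fun P |>.1 (hx i)
    exact ⟨c, by simpa using hc⟩
  choose A hA using h1
  set B : Matrix (Fin m) (Fin m) P := fun j i => A i j with hB
  have hform : form q ∘ₗ (Matrix.toLin' B) = form x := by
    ext i
    simp only [LinearMap.coe_comp, Function.comp_apply, LinearMap.coe_single]
    rw [form_apply, form_apply]
    simp only [Pi.single_apply, mul_ite, mul_one, mul_zero, Finset.sum_ite_eq', Finset.mem_univ, if_true]
    rw [← hA i]
    refine Finset.sum_congr rfl fun j _ => ?_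
    have : (Matrix.toLin' B) (Pi.single i 1) j = A i j := by
      rw [Matrix.toLin'_apply, Matrix.mulVec_single_one]; rfl
    rw [this, mul_comm]
  refine ⟨(ExteriorAlgebra.map (Matrix.toLin' B)).toLinearMap, B.det, ⟨?_, ?_, ?_, ?_⟩, ?_⟩
  · intro k η hη
    exact map_mem _ k η hη
  · intro η
    simp only [AlgHom.toLinearMap_apply]
    rw [kd, d_map, hform]
    rfl
  · simp
  · exact map_vol B
  · intro i
    have h : B.det * q i = ∑ j, x j * (Matrix.adjugate B) j i := by
      have h2 : Matrix.vecMul x (Matrix.adjugate B) = B.det • q := by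
        have h3 : x = Matrix.vecMul q B := by
          funext i
          rw [← hA i]
          simp [Matrix.vecMul, dotProduct, hB, mul_comm]
        rw [h3, Matrix.vecMul_vecMul, Matrix.mul_adjugate, Matrix.vecMul_smul, Matrix.vecMul_one]
      have h4 := congrFun h2 i
      simp only [Pi.smul_apply, smul_eq_mul, Matrix.vecMul, dotProduct] at h4
      exact h4.symm
    rw [h]
    refine Ideal.sum_mem _ fun j _ => Ideal.mul_mem_right _ _ (Ideal.subset_span ⟨j, rfl⟩)

end Pool.Agent.L7h20.GP
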