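import Pool.Agent.L7h93.GP.Kos

/-!
# Koszul complexes as exterior algebras: basic lemmas (project GP)
-/

set_option autoImplicit false

namespace Pool.Agent.L7h20.GP

open ExteriorAlgebra Pool.Agent.L7h93.GP

variable {P : Type} [CommRing P] {m : ℕ}

theorem d_ι_mul (d : Module.Dual P (Fin m → P)) (v : Fin m → P) (x : EA P m) :
    CliffordAlgebra.contractLeft d (ι P v * x) = d v • x - ι P v * CliffordAlgebra.contractLeft d x :=
  CliffordAlgebra.contractLeft_ι_mul (Q := (0 : QuadraticForm P (Fin m → P))) d v x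

theorem d_one (d : Module.Dual P (Fin m → P)) :
    CliffordAlgebra.contractLeft d (1 : EA P m) = 0 :=
  CliffordAlgebra.contractLeft_one (Q := (0 : QuadraticForm P (Fin m → P))) d

theorem d_d (d : Module.Dual P (Fin m → P)) (x : EA P m) :
    CliffordAlgebra.contractLeft d (CliffordAlgebra.contractLeft d x) = 0 :=
  CliffordAlgebra.contractLeft_contractLeft (Q := (0 : QuadraticForm P (Fin m → P))) d x

theorem d_comm (d d' : Module.Dual P (Fin m → P)) (x : EA P m) :
    CliffordAlgebra.contractLeft d (CliffordAlgebra.contractLeft d' x) =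
      -CliffordAlgebra.contractLeft d' (CliffordAlgebra.contractLeft d x) :=
  CliffordAlgebra.contractLeft_comm (Q := (0 : QuadraticForm P (Fin m → P))) d d' x

/-- the involution of the exterior algebra -/
noncomputable def inv (P : Type) [CommRing P] (m : ℕ) : EA P m →ₐ[P] EA P m :=
  CliffordAlgebra.involute (Q := (0 : QuadraticForm P (Fin m → P)))

theorem inv_ι (v : Fin m → P) : inv P m (ι P v) = -ι P v :=
  CliffordAlgebra.involute_ι (Q := (0 : QuadraticForm P (Fin m → P))) v

theorem d_mul (d : Module.Dual P (Fin m → P)) (x y : EA P m) :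
    CliffordAlgebra.contractLeft d (x * y) =
      CliffordAlgebra.contractLeft d x * y + inv P m x * CliffordAlgebra.contractLeft d y := by
  induction x using CliffordAlgebra.left_induction with
  | algebraMap r =>
    rw [CliffordAlgebra.contractLeft_algebraMap_mul, CliffordAlgebra.contractLeft_algebraMap, zero_mul, zero_add]
    congr 1
    exact ((inv P m).commutes r).symm
  | add a b ha hb =>
    rw [add_mul, map_add, ha, hb, map_add, map_add, add_mul, add_mul]; abel
  | ι_mul a v ha =>
    have e : (CliffordAlgebra.ι (0 : QuadraticForm P (Fin m → P))) v = ι P v := rfl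
    rw [e, mul_assoc, d_ι_mul, ha, d_ι_mul, map_mul, inv_ι, mul_add, sub_mul, smul_mul_assoc, neg_mul, neg_mul]
    simp only [mul_assoc]
    abel

theorem ι_mul_mem (k : ℕ) (v : Fin m → P) (x : EA P m) (hx : x ∈ ⋀[P]^k (Fin m → P)) :
    ι P v * x ∈ ⋀[P]^(k + 1) (Fin m → P) := by
  rw [exteriorPower, pow_succ']
  exact Submodule.mul_mem_mul ⟨v, rfl⟩ hx

/-- induction over a graded piece -/
theorem ind (k : ℕ) (C : EA P m → Prop) (_h0 : C 0) (hadd : ∀ x y, C x → C y → C (x + y))
    (h : ∀ (v : Fin m → P) (x : EA P m), x ∈ ⋀[P]^k (Fin m → P) → C (ι P v * x)) :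
    ∀ x ∈ ⋀[P]^(k + 1) (Fin m → P), C x := by
  intro x hx
  rw [exteriorPower, pow_succ'] at hx
  refine Submodule.mul_induction_on hx ?_ hadd
  rintro _ ⟨v, rfl⟩ y hy
  exact h v y hy

theorem mem_zero_iff (x : EA P m) (hx : x ∈ ⋀[P]^0 (Fin m → P)) : ∃ r : P, x = r • 1 := by
  rw [exteriorPower, pow_zero, Submodule.mem_one] at hx
  obtain ⟨r, rfl⟩ := hx
  exact ⟨r, Algebra.algebraMap_eq_smul_one r⟩

theorem d_zero (d : Module.Dual P (Fin m → P)) (x : EA P m) (hx : x ∈ ⋀[P]^0 (Fin m → P)) :
    CliffordAlgebra.contractLeft d x = 0 := by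
  obtain ⟨r, rfl⟩ := mem_zero_iff x hx
  rw [map_smul, d_one, smul_zero]

theorem d_mem (d : Module.Dual P (Fin m → P)) (k : ℕ) : ∀ x ∈ ⋀[P]^(k + 1) (Fin m → P),
    CliffordAlgebra.contractLeft d x ∈ ⋀[P]^k (Fin m → P) := by
  induction k with
  | zero =>
    refine ind 0 _ ?_ ?_ ?_
    · rw [map_zero]; exact zero_mem _
    · intro x y hx hy; rw [map_add]; exact add_mem hx hy
    · intro v x hx
      rw [d_ι_mul, d_zero d x hx, mul_zero, sub_zero]
      exact Submodule.smul_mem _ _ hx
  | succ k ih =>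
    refine ind (k + 1) _ ?_ ?_ ?_
    · rw [map_zero]; exact zero_mem _
    · intro x y hx hy; rw [map_add]; exact add_mem hx hy
    · intro v x hx
      rw [d_ι_mul]
      exact sub_mem (Submodule.smul_mem _ _ hx) (ι_mul_mem k v _ (ih x hx))

theorem inv_mem (k : ℕ) : ∀ x ∈ ⋀[P]^k (Fin m → P), inv P m x = (-1 : P) ^ k • x := by
  induction k with
  | zero =>
    intro x hx
    obtain ⟨r, rfl⟩ := mem_zero_iff x hx
    rw [map_smul, map_one, pow_zero, one_smul]
  | succ k ih =>
    refine ind k _ ?_ ?_ ?_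
    · rw [map_zero, smul_zero]
    · intro x y hx hy; rw [map_add, hx, hy, smul_add]
    · intro v x hx
      rw [map_mul, inv_ι, ih x hx, mul_smul_comm, pow_succ, mul_neg_one, neg_smul, neg_mul, smul_neg]

/-- the Koszul differential is linear in the sequence -/
theorem form_apply (q v : Fin m → P) : form q v = ∑ i, q i * v i := by
  simp [form, LinearMap.sum_apply]

theorem pow_top (x : EA P m) (hx : x ∈ ⋀[P]^(m + 1) (Fin m → P)) : x = 0 := by
  have h : (ιMulti P (m + 1) : (Fin m → P) [⋀^Fin (m + 1)]→ₗ[P] EA P m) = 0 := by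
    refine Module.Basis.ext_alternating (Pi.basisFun P (Fin m)) fun v hv => ?_
    exact absurd (Fintype.card_le_of_injective v hv) (by simp)
  rw [← ιMulti_span_fixedDegree] at hx
  have : Submodule.span P (Set.range (ιMulti P (m + 1) (M := Fin m → P))) = ⊥ := by
    rw [Submodule.span_eq_bot]
    rintro _ ⟨v, rfl⟩
    rw [h]; rfl
  rw [this] at hx
  exact hx

theorem vol_mem : vol P m ∈ ⋀[P]^m (Fin m → P) := ιMulti_range P m ⟨_, rfl⟩

theorem ι_mul_vol (v : Fin m → P) : ι P v * vol P m = 0 := pow_top _ (ι_mul_mem m v _ vol_mem)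

theorem one_mem' : (1 : EA P m) ∈ ⋀[P]^0 (Fin m → P) := by
  rw [exteriorPower, pow_zero]; exact Submodule.one_le.1 le_rfl

end Pool.Agent.L7h20.GP
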