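import Pool.Agent.L7h20.GP.Cm1

/-!
# `S_CM` and `S_SOC` (project GP)
-/

set_option autoImplicit false

namespace Pool.Agent.L7h20.GP

open IsLocalRing RingTheory.Sequence Pool.Agent.L7h93.GP

section

variable {P : Type} [CommRing P] [IsRegularLocalRing P] {n : ℕ}

theorem height_eq (hn : ringKrullDim P = n) : (maximalIdeal P).height = n := by
  have h : ((maximalIdeal P).height : WithBot ℕ∞) = (n : WithBot ℕ∞) := by
    rw [IsLocalRing.maximalIdeal_height_eq_ringKrullDim, hn]
  exact_mod_cast h

/-- generators of the maximal ideal -/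
theorem exists_gens (hn : ringKrullDim P = n) : ∃ x : Fin n → P, Ideal.span (Set.range x) = maximalIdeal P := by
  have h1 : Module.finrank (ResidueField P) (CotangentSpace P) = n := by
    have := Pool.Agent.H379R3.finrank_cotangent (B := P)
    rw [hn] at this
    exact_mod_cast this
  let b := Module.finBasisOfFinrankEq (ResidueField P) (CotangentSpace P) h1
  choose z hz using fun i => Ideal.toCotangent_surjective (maximalIdeal P) (b i)
  exact ⟨fun i => z i, Pool.Agent.H379R3.span_of_basis b z hz⟩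

/-- the ideal generated by the first `i` members is prime -/
theorem prime_take (hn : ringKrullDim P = n) (x : Fin n → P) (hx : Ideal.span (Set.range x) = maximalIdeal P)
    (i : ℕ) (hi : i ≤ n) : (Ideal.span (x '' {j : Fin n | (j : ℕ) < i})).IsPrime := by
  set K : Ideal P := Ideal.span (x '' {j : Fin n | (j : ℕ) < i}) with hK
  have hKm : K ≤ maximalIdeal P := by
    rw [← hx]; exact Ideal.span_mono (Set.image_subset_range _ _)
  have hKt : K ≠ ⊤ := fun h => (maximalIdeal.isMaximal P).ne_top (top_le_iff.1 (h ▸ hKm))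
  have : Nontrivial (P ⧸ K) := Ideal.Quotient.nontrivial_iff.2 hKt
  have : IsLocalRing (P ⧸ K) := IsLocalRing.of_surjective' (Ideal.Quotient.mk K) Ideal.Quotient.mk_surjective
  classical
  -- dimension of the quotient
  have hcard : ((Finset.univ.filter fun j : Fin n => (j : ℕ) < i).image x).card ≤ i := by
    classical
    refine Finset.card_image_le.trans ?_
    rw [Fin.card_filter_val_lt]
    omega
  have hd1 := ringKrullDim_le_ringKrullDim_quotient_add_card
    ((Finset.univ.filter fun j : Fin n => (j : ℕ) < i).image x) (by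
      intro r hr
      obtain ⟨j, -, rfl⟩ := Finset.mem_image.1 (Finset.mem_coe.1 hr)
      rw [IsLocalRing.ringJacobson_eq_maximalIdeal, ← hx]
      exact Ideal.subset_span ⟨j, rfl⟩)
  have hset : (((Finset.univ.filter fun j : Fin n => (j : ℕ) < i).image x : Finset P) : Set P) =
      x '' {j : Fin n | (j : ℕ) < i} := by
    ext r; simp
  rw [hset, hn] at hd1
  have hsf : (maximalIdeal (P ⧸ K)).spanFinrank ≤ n - i := by
    have h1 : maximalIdeal (P ⧸ K) = Ideal.span (Ideal.Quotient.mk K '' (x '' {j : Fin n | i ≤ (j : ℕ)})) := by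
      rw [← Pool.Agent.H379R3.map_mk_maximalIdeal K, ← hx, Ideal.map_span]
      refine le_antisymm (Ideal.span_le.2 ?_) (Ideal.span_mono (Set.image_mono (Set.image_subset_range _ _)))
      rintro _ ⟨_, ⟨j, rfl⟩, rfl⟩
      by_cases hj : (j : ℕ) < i
      · have : Ideal.Quotient.mk K (x j) = 0 := Ideal.Quotient.eq_zero_iff_mem.2 (Ideal.subset_span ⟨j, hj, rfl⟩)
        rw [this]; exact zero_mem _
      · exact Ideal.subset_span ⟨_, ⟨j, not_lt.1 hj, rfl⟩, rfl⟩
    rw [h1]
    refine (Submodule.spanFinrank_span_le_ncard_of_finite (Set.toFinite _)).trans ?_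
    refine (Set.ncard_image_le (Set.toFinite _)).trans ((Set.ncard_image_le (Set.toFinite _)).trans ?_)
    have : {j : Fin n | i ≤ (j : ℕ)} = ((Finset.univ.filter fun j : Fin n => ¬ (j : ℕ) < i : Finset (Fin n)) : Set (Fin n)) := by
      ext; simp
    rw [this, Set.ncard_coe_finset, Finset.filter_not, Finset.card_sdiff_of_subset (Finset.filter_subset _ _),
      Finset.card_fin, Fin.card_filter_val_lt]
    omega
  have hreg : IsRegularLocalRing (P ⧸ K) := by
    refine IsRegularLocalRing.of_spanFinrank_maximalIdeal_le _ ?_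
    have h2 : ((maximalIdeal (P ⧸ K)).spanFinrank : WithBot ℕ∞) ≤ ((n - i : ℕ) : WithBot ℕ∞) := by exact_mod_cast hsf
    refine h2.trans ?_
    have h3 : (n : WithBot ℕ∞) ≤ ringKrullDim (P ⧸ K) + (i : WithBot ℕ∞) := by
      refine hd1.trans ?_
      gcongr
    have h4 : ringKrullDim (P ⧸ K) ≠ ⊥ := ringKrullDim_ne_bot
    obtain ⟨d, hd⟩ := WithBot.ne_bot_iff_exists.1 h4
    rw [← hd] at h3 ⊢
    have h5 : ((n : ℕ) : ℕ∞) ≤ d + (i : ℕ∞) := by exact_mod_cast h3
    induction d using ENat.recTopCoe with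
    | top => exact le_top
    | coe d =>
      have h6 : n ≤ d + i := by exact_mod_cast h5
      have h7 : n - i ≤ d := by omega
      have h8 : ((n - i : ℕ) : ℕ∞) ≤ ((d : ℕ) : ℕ∞) := Nat.cast_le.2 h7
      exact WithBot.coe_le_coe.2 h8
  have := Pool.Agent.H379R3.isDomain (P ⧸ K)
  exact (Ideal.Quotient.isDomain_iff_prime K).1 this

theorem exists_wr (hn : ringKrullDim P = n) : ∃ x : Fin n → P, Ideal.span (Set.range x) = maximalIdeal P ∧ WR x := by
  obtain ⟨x, hx⟩ := exists_gens (P := P) hn
  refine ⟨x, hx, ?_⟩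
  have hxm : ∀ i, x i ∈ maximalIdeal P := fun i => by rw [← hx]; exact Ideal.subset_span ⟨i, rfl⟩
  refine WR.of_one hxm (List.finRange n) (List.Perm.refl _) ⟨fun i hi => ?_⟩
  have hin : i < n := by simpa using hi
  have hget : ((List.finRange n).map x)[i] = x ⟨i, hin⟩ := by simp
  have htake : Ideal.ofList (((List.finRange n).map x).take i) = Ideal.span (x '' {j : Fin n | (j : ℕ) < i}) := by
    unfold Ideal.ofList
    congr 1
    ext r
    simp only [Set.mem_ofPred_eq, List.mem_take_iff_getElem, Set.mem_image]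
    constructor
    · rintro ⟨j, hj, rfl⟩
      have hj' : j < i ∧ j < n := by
        rw [List.length_map, List.length_finRange, lt_min_iff] at hj; exact hj
      exact ⟨⟨j, hj'.2⟩, hj'.1, by simp⟩
    · rintro ⟨j, hj, rfl⟩
      exact ⟨j, by rw [List.length_map, List.length_finRange, lt_min_iff]; exact ⟨hj, j.2⟩, by simp⟩
  rw [hget, isSMulRegular_quotient_iff_mem_of_smul_mem, htake, smul_eq_mul, Ideal.mul_top]
  intro a ha
  rcases (prime_take hn x hx i hin.le).mem_or_mem ha with h | h
  · exfalso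
    -- the maximal ideal would be generated by the others
    have h1 : Ideal.span (Set.range x) = oth x ⟨i, hin⟩ := by
      rw [span_range x ⟨i, hin⟩, sup_eq_left]
      refine Ideal.span_le.2 ?_
      rintro _ rfl
      refine Ideal.span_mono ?_ h
      rintro _ ⟨j, hj, rfl⟩
      exact ⟨j, fun h2 => by
        have hj' : (j : ℕ) < i := hj
        rw [h2] at hj'
        exact lt_irrefl _ hj', rfl⟩
    refine two x ⟨i, hin⟩ (height_eq hn) ?_
    rw [← h1, hx]
    exact ⟨⟨(maximalIdeal.isMaximal P).isPrime, le_rfl⟩, fun Q hQ _ => hQ.2⟩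
  · exact h

theorem SS_max : SS (maximalIdeal P) := by
  intro u v _ _ hu
  have : IsUnit u := by
    by_contra h
    exact hu ((IsLocalRing.mem_maximalIdeal u).2 h)
  obtain ⟨w, hw⟩ := this.exists_left_inv
  refine ⟨v * w, ?_⟩
  have : v - v * w * u = 0 := by rw [mul_assoc, hw, mul_one, sub_self]
  rw [this]; exact zero_mem _

theorem both (hn : ringKrullDim P = n) (q : Fin n → P) (hq : MP q) : WR q ∧ SS (Ideal.span (Set.range q)) := by
  obtain ⟨x, hx, hw⟩ := exists_wr (P := P) hn
  refine chain (height_eq hn) n le_rfl x q ⟨fun i => ?_, 1, ?_⟩ hq (fun j hj => ?_) hw ?_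
  · rw [← hx]; exact Ideal.subset_span ⟨i, rfl⟩
  · rw [pow_one, hx]
  · omega
  · rw [hx]; exact SS_max

end

theorem s_CM : S_CM := by
  intro P _ _ n hn q hq hk i a ha
  obtain ⟨h, -⟩ := both hn q ⟨hq, hk⟩
  have h1 := (h (List.finRange n) (List.Perm.refl _)).regular_mod_prev i (by simp)
  have hget : ((List.finRange n).map q)[(i : ℕ)]'(by simp) = q i := by simp
  have htake : Ideal.ofList (((List.finRange n).map q).take i) = Ideal.span (q '' {j | j < i}) := by
    unfold Ideal.ofList
    congr 1
    ext r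
    simp only [Set.mem_ofPred_eq, List.mem_take_iff_getElem, Set.mem_image]
    constructor
    · rintro ⟨j, hj, rfl⟩
      have hj' : j < i ∧ j < n := by
        rw [List.length_map, List.length_finRange, lt_min_iff] at hj; exact hj
      exact ⟨⟨j, hj'.2⟩, Fin.lt_def.2 hj'.1, by simp⟩
    · rintro ⟨j, hj, rfl⟩
      exact ⟨j, by rw [List.length_map, List.length_finRange, lt_min_iff]; exact ⟨Fin.lt_def.1 hj, j.2⟩, by simp⟩
  rw [hget, isSMulRegular_quotient_iff_mem_of_smul_mem, htake, smul_eq_mul, Ideal.mul_top] at h1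
  exact h1 a ha

theorem s_SOC : S_SOC := by
  intro P _ _ n hn q hq hk u v hu hv hu'
  exact (both hn q ⟨hq, hk⟩).2 u v hu hv hu'

end Pool.Agent.L7h20.GP
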