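import Pool.Agent.L7h93.GP.Stm
import Pool.Agent.H379R3.Reg

/-!
# Exchange of systems of parameters (project GP, `S_CM`, `S_SOC`)
-/

set_option autoImplicit false

namespace Pool.Agent.L7h20.GP

open IsLocalRing RingTheory.Sequence

variable {P : Type} [CommRing P] [IsLocalRing P] [IsNoetherianRing P] {n : ℕ}

/-- `𝔪`-primary systems of elements of `𝔪` -/
def MP (s : Fin n → P) : Prop :=
  (∀ i, s i ∈ maximalIdeal P) ∧ ∃ k : ℕ, maximalIdeal P ^ k ≤ Ideal.span (Set.range s)

/-- the ideal of all the others -/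
def oth (s : Fin n → P) (i : Fin n) : Ideal P := Ideal.span (s '' {j | j ≠ i})

omit [IsLocalRing P] [IsNoetherianRing P] in
theorem oth_update (s : Fin n → P) (i : Fin n) (z : P) : oth (Function.update s i z) i = oth s i := by
  unfold oth
  congr 1
  refine Set.image_congr fun j hj => ?_
  exact Function.update_of_ne hj _ _

omit [IsLocalRing P] [IsNoetherianRing P] in
theorem span_range (s : Fin n → P) (i : Fin n) :
    Ideal.span (Set.range s) = oth s i ⊔ Ideal.span {s i} := by
  refine le_antisymm (Ideal.span_le.2 ?_) (sup_le (Ideal.span_mono ?_) (Ideal.span_le.2 ?_))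
  · rintro _ ⟨j, rfl⟩
    by_cases h : j = i
    · subst h; exact Ideal.mem_sup_right (Ideal.mem_span_singleton_self _)
    · exact Ideal.mem_sup_left (Ideal.subset_span ⟨j, h, rfl⟩)
  · rintro _ ⟨j, -, rfl⟩; exact ⟨j, rfl⟩
  · rintro _ rfl; exact Ideal.subset_span ⟨i, rfl⟩

omit [IsLocalRing P] [IsNoetherianRing P] in
theorem span_update (s : Fin n → P) (i : Fin n) (z : P) :
    Ideal.span (Set.range (Function.update s i z)) = oth s i ⊔ Ideal.span {z} := by
  rw [span_range _ i, oth_update, Function.update_self]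

theorem exists_pow (J : Ideal P) (h : ∀ Q : Ideal P, Q.IsPrime → J ≤ Q → Q = maximalIdeal P) :
    ∃ k : ℕ, maximalIdeal P ^ k ≤ J := by
  refine Ideal.exists_pow_le_of_le_radical_of_fg ?_ (IsNoetherian.noetherian _)
  rw [Ideal.radical_eq_sInf]
  refine le_sInf ?_
  rintro Q ⟨hJ, hQ⟩
  exact (h Q hQ hJ).ge

omit [IsNoetherianRing P] in
theorem prime_of_pow (J : Ideal P) (k : ℕ) (hk : maximalIdeal P ^ k ≤ J) (Q : Ideal P) (hQ : Q.IsPrime)
    (h : J ≤ Q) : Q = maximalIdeal P := by
  have h1 : maximalIdeal P ≤ Q := hQ.le_of_pow_le (hk.trans h)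
  exact ((maximalIdeal.isMaximal P).eq_of_le hQ.ne_top h1).symm

theorem one (s : Fin n → P) (hs : MP s) (i : Fin n) (z : P) (hz : z ∈ maximalIdeal P)
    (hzp : ∀ p ∈ (oth s i).minimalPrimes, z ∉ p) : MP (Function.update s i z) := by
  refine ⟨fun j => ?_, ?_⟩
  · by_cases h : j = i
    · subst h; rw [Function.update_self]; exact hz
    · rw [Function.update_of_ne h]; exact hs.1 j
  rw [span_update]
  refine exists_pow _ fun Q hQ hJ => ?_
  by_contra hne
  have hQm : Q < maximalIdeal P := lt_of_le_of_ne (IsLocalRing.le_maximalIdeal hQ.ne_top) hne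
  have hzQ : z ∈ Q := hJ (Ideal.mem_sup_right (Ideal.mem_span_singleton_self _))
  have hIQ : oth s i ≤ Q := le_sup_left.trans hJ
  obtain ⟨p, hp, hpQ⟩ := Ideal.exists_minimalPrimes_le hIQ
  have hpp : p.IsPrime := hp.1.1
  have hIp : oth s i ≤ p := hp.1.2
  have hpQ' : p < Q := lt_of_le_of_ne hpQ fun h => hzp p hp (h ▸ hzQ)
  -- the chain in the quotient
  have hmin : maximalIdeal P ∈ (oth s i ⊔ Ideal.span {s i}).minimalPrimes := by
    obtain ⟨k, hk⟩ := hs.2
    rw [span_range s i] at hk
    have hle : oth s i ⊔ Ideal.span {s i} ≤ maximalIdeal P := by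
      rw [← span_range]
      exact Ideal.span_le.2 (by rintro _ ⟨j, rfl⟩; exact hs.1 j)
    refine ⟨⟨(maximalIdeal.isMaximal P).isPrime, hle⟩, ?_⟩
    rintro Q' ⟨hQ', hJ'⟩ -
    exact (prime_of_pow _ k hk Q' hQ' hJ').ge
  have h1 := Ideal.map_height_le_one_of_mem_minimalPrimes hmin
  set f := Ideal.Quotient.mk (oth s i) with hf
  have hsurj : Function.Surjective f := Ideal.Quotient.mk_surjective
  have hker : ∀ K : Ideal P, oth s i ≤ K → (K.map f).comap f = K := fun K hK => by
    rw [Ideal.comap_map_of_surjective _ hsurj, ← RingHom.ker_eq_comap_bot, hf, Ideal.mk_ker, sup_eq_left.2 hK]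
  have hmono : ∀ K L : Ideal P, oth s i ≤ K → oth s i ≤ L → K < L → K.map f < L.map f := fun K L hK hL h => by
    refine lt_of_le_of_ne (Ideal.map_mono h.le) fun h2 => h.ne ?_
    rw [← hker K hK, ← hker L hL, h2]
  have hprime : ∀ K : Ideal P, oth s i ≤ K → K.IsPrime → (K.map f).IsPrime := fun K hK hKp =>
    Ideal.map_isPrime_of_surjective hsurj (by rw [hf, Ideal.mk_ker]; exact hK)
  have := hprime p hIp hpp
  have := hprime Q hIQ hQ
  have := hprime (maximalIdeal P) (hIQ.trans hQm.le) (maximalIdeal.isMaximal P).isPrime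
  have h2 := Ideal.height_add_one_le_of_lt_of_isPrime (hmono p Q hIp hIQ hpQ')
  have h3 := Ideal.height_add_one_le_of_lt_of_isPrime (hmono Q _ hIQ (hIQ.trans hQm.le) hQm)
  have h4 : (1 : ℕ∞) ≤ (Q.map f).height := le_trans (by simp) h2
  have h5 : (2 : ℕ∞) ≤ 1 := by
    calc (2 : ℕ∞) = 1 + 1 := by norm_num
      _ ≤ (Q.map f).height + 1 := by gcongr
      _ ≤ _ := h3
      _ ≤ 1 := h1
  exact absurd h5 (by norm_num)

theorem two (s : Fin n → P) (i : Fin n) (hdim : (maximalIdeal P).height = n) :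
    maximalIdeal P ∉ (oth s i).minimalPrimes := by
  intro h
  have h1 := Ideal.height_le_card_of_mem_minimalPrimes_span (Set.toFinite _) h
  have h2 : (s '' {j | j ≠ i}).ncard ≤ n - 1 := by
    refine (Set.ncard_image_le (Set.toFinite _)).trans ?_
    have : {j : Fin n | j ≠ i} = ((Finset.univ.erase i : Finset (Fin n)) : Set (Fin n)) := by ext; simp
    rw [this, Set.ncard_coe_finset, Finset.card_erase_of_mem (Finset.mem_univ _), Finset.card_fin]
  rw [hdim] at h1
  have h2' : (((s '' {j | j ≠ i}).ncard : ℕ) : ℕ∞) ≤ ((n - 1 : ℕ) : ℕ∞) := Nat.cast_le.2 h2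
  have h3 : n ≤ n - 1 := Nat.cast_le.1 (h1.trans h2')
  have := i.2
  omega

theorem gp (s s' : Fin n → P) (hs : MP s) (hs' : MP s') (i : Fin n) (hdim : (maximalIdeal P).height = n) :
    ∃ z, MP (Function.update s i z) ∧ MP (Function.update s' i z) := by
  set S : Set (Ideal P) := (oth s i).minimalPrimes ∪ (oth s' i).minimalPrimes with hS
  have hfin : S.Finite := ((oth s i).finite_minimalPrimes_of_isNoetherianRing P).union
    ((oth s' i).finite_minimalPrimes_of_isNoetherianRing P)
  have hprime : ∀ I ∈ S, I.IsPrime := by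
    rintro I (h | h)
    · exact h.1.1
    · exact h.1.1
  have h1 : ¬ ((maximalIdeal P : Set P) ⊆ ⋃ I ∈ S, (I : Set P)) := by
    intro h
    have h2 := (Ideal.subset_union_prime_finite hfin (f := id) ⊤ ⊤ (fun I hI _ _ => hprime I hI)).1 h
    obtain ⟨I, hI, h3⟩ := h2
    have h4 : maximalIdeal P = I := (maximalIdeal.isMaximal P).eq_of_le (hprime I hI).ne_top h3
    rcases hI with hI | hI
    · exact two s i hdim (h4 ▸ hI)
    · exact two s' i hdim (h4 ▸ hI)
  obtain ⟨z, hz, hz'⟩ := Set.not_subset.1 h1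
  simp only [Set.mem_iUnion, not_exists] at hz'
  exact ⟨z, one s hs i z hz fun p hp h => hz' p (Or.inl hp) h, one s' hs' i z hz fun p hp h => hz' p (Or.inr hp) h⟩

/-- regular in every order -/
def WR (s : Fin n → P) : Prop := ∀ l : List (Fin n), l.Perm (List.finRange n) → IsWeaklyRegular P (l.map s)

theorem WR.of_one {s : Fin n → P} (hs : ∀ i, s i ∈ maximalIdeal P) (l : List (Fin n))
    (hl : l.Perm (List.finRange n)) (h : IsWeaklyRegular P (l.map s)) : WR s := by
  intro l' hl'
  refine IsLocalRing.isWeaklyRegular_of_perm_of_subset_maximalIdeal h (List.Perm.map s (hl.trans hl'.symm)) ?_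
  intro r hr
  obtain ⟨i, -, rfl⟩ := List.mem_map.1 hr
  exact hs i

theorem perm_last (i : Fin n) : ((List.finRange n).erase i ++ [i]).Perm (List.finRange n) :=
  (List.perm_append_singleton i _).trans (List.perm_cons_erase (List.mem_finRange i)).symm

omit [IsLocalRing P] [IsNoetherianRing P] in
theorem ofList_oth (s : Fin n → P) (i : Fin n) :
    Ideal.ofList (((List.finRange n).erase i).map s) = oth s i := by
  unfold Ideal.ofList oth
  congr 1
  ext r
  simp only [Set.mem_ofPred_eq, List.mem_map, Set.mem_image]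
  constructor
  · rintro ⟨j, hj, rfl⟩
    exact ⟨j, ((List.nodup_finRange n).mem_erase_iff.1 hj).1, rfl⟩
  · rintro ⟨j, hj, rfl⟩
    exact ⟨j, (List.nodup_finRange n).mem_erase_iff.2 ⟨hj, List.mem_finRange j⟩, rfl⟩

omit [IsLocalRing P] [IsNoetherianRing P] in
theorem append_iff (s : Fin n → P) (i : Fin n) :
    IsWeaklyRegular P (((List.finRange n).erase i ++ [i]).map s) ↔
      IsWeaklyRegular P (((List.finRange n).erase i).map s) ∧ ∀ a, s i * a ∈ oth s i → a ∈ oth s i := by
  rw [List.map_append, isWeaklyRegular_append_iff, List.map_singleton, isWeaklyRegular_singleton_iff,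
    isSMulRegular_quotient_iff_mem_of_smul_mem, ofList_oth, smul_eq_mul, Ideal.mul_top]
  rfl

omit [IsLocalRing P] [IsNoetherianRing P] in
theorem WR.last {s : Fin n → P} (h : WR s) (i : Fin n) :
    IsWeaklyRegular P (((List.finRange n).erase i).map s) ∧ ∀ a, s i * a ∈ oth s i → a ∈ oth s i :=
  (append_iff s i).1 (h _ (perm_last i))

theorem WR.of_last {s : Fin n → P} (hs : ∀ i, s i ∈ maximalIdeal P) (i : Fin n)
    (h1 : IsWeaklyRegular P (((List.finRange n).erase i).map s)) (h2 : ∀ a, s i * a ∈ oth s i → a ∈ oth s i) : WR s :=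
  WR.of_one hs _ (perm_last i) ((append_iff s i).2 ⟨h1, h2⟩)

omit [IsLocalRing P] [IsNoetherianRing P] in
theorem map_update (s : Fin n → P) (i : Fin n) (b : P) :
    ((List.finRange n).erase i).map (Function.update s i b) = ((List.finRange n).erase i).map s := by
  refine List.map_congr_left fun j hj => ?_
  exact Function.update_of_ne ((List.nodup_finRange n).mem_erase_iff.1 hj).1 _ _

omit [IsLocalRing P] [IsNoetherianRing P] in
theorem reg_pow (c : Ideal P) (a : P) (ha : ∀ y, a * y ∈ c → y ∈ c) (k : ℕ) : ∀ y, a ^ k * y ∈ c → y ∈ c := by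
  induction k with
  | zero => intro y hy; rwa [pow_zero, one_mul] at hy
  | succ k ih =>
    intro y hy
    rw [pow_succ', mul_assoc] at hy
    exact ih y (ha _ hy)

/-- exchange of one member -/
theorem WR.exch {s : Fin n → P} (i : Fin n) (b : P) (hs : MP s) (ht : MP (Function.update s i b)) (h : WR s) :
    WR (Function.update s i b) := by
  obtain ⟨h1, h2⟩ := h.last i
  refine WR.of_last ht.1 i (by rwa [map_update]) ?_
  rw [oth_update, Function.update_self]
  intro y hy
  obtain ⟨k, hk⟩ := ht.2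
  rw [span_update] at hk
  have h3 : s i ^ k ∈ oth s i ⊔ Ideal.span {b} := hk (Ideal.pow_mem_pow (hs.1 i) k)
  obtain ⟨c, hc, d, hd, hcd⟩ := Submodule.mem_sup.1 h3
  obtain ⟨e, rfl⟩ := Ideal.mem_span_singleton'.1 hd
  refine reg_pow _ _ h2 k y ?_
  rw [← hcd, add_mul]
  refine add_mem (Ideal.mul_mem_right _ _ hc) ?_
  rw [mul_assoc]
  exact Ideal.mul_mem_left _ _ hy

/-- simple socle -/
def SS (I : Ideal P) : Prop := ∀ u v : P, (∀ r ∈ maximalIdeal P, r * u ∈ I) →
    (∀ r ∈ maximalIdeal P, r * v ∈ I) → u ∉ I → ∃ r : P, v - r * u ∈ I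

omit [IsNoetherianRing P] in
theorem mul_mem_iff (c : Ideal P) (a b : P) (hb : ∀ y, b * y ∈ c → y ∈ c) (y : P) :
    b * y ∈ c ⊔ Ideal.span {a * b} ↔ y ∈ c ⊔ Ideal.span {a} := by
  constructor
  · intro h
    obtain ⟨x, hx, d, hd, hxd⟩ := Submodule.mem_sup.1 h
    obtain ⟨e, rfl⟩ := Ideal.mem_span_singleton'.1 hd
    have : b * (y - e * a) ∈ c := by
      have : b * (y - e * a) = x := by linear_combination hxd.symm
      rw [this]; exact hx
    have h2 := hb _ this
    have : y = (y - e * a) + e * a := by ring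
    rw [this]
    exact add_mem (Ideal.mem_sup_left h2) (Ideal.mem_sup_right (Ideal.mul_mem_left _ _ (Ideal.mem_span_singleton_self _)))
  · intro h
    obtain ⟨x, hx, d, hd, hxd⟩ := Submodule.mem_sup.1 h
    obtain ⟨e, rfl⟩ := Ideal.mem_span_singleton'.1 hd
    rw [← hxd, mul_add]
    refine add_mem (Ideal.mem_sup_left (Ideal.mul_mem_left _ _ hx)) (Ideal.mem_sup_right ?_)
    have : b * (e * a) = e * (a * b) := by ring
    rw [this]
    exact Ideal.mul_mem_left _ _ (Ideal.mem_span_singleton_self _)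

omit [IsNoetherianRing P] in
theorem SS_mul (c : Ideal P) (a b : P) (ha : ∀ y, a * y ∈ c → y ∈ c) (hb : ∀ y, b * y ∈ c → y ∈ c)
    (ham : a ∈ maximalIdeal P) : SS (c ⊔ Ideal.span {a}) ↔ SS (c ⊔ Ideal.span {a * b}) := by
  have key := mul_mem_iff c a b hb
  constructor
  · intro h u v hu hv hu'
    have hdiv : ∀ u, (∀ r ∈ maximalIdeal P, r * u ∈ c ⊔ Ideal.span {a * b}) → ∃ w, u - b * w ∈ c := by
      intro u hu
      obtain ⟨x, hx, d, hd, hxd⟩ := Submodule.mem_sup.1 (hu a ham)
      obtain ⟨e, rfl⟩ := Ideal.mem_span_singleton'.1 hd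
      refine ⟨e, ha _ ?_⟩
      have : a * (u - b * e) = x := by linear_combination hxd.symm
      rw [this]; exact hx
    obtain ⟨u1, hu1⟩ := hdiv u hu
    obtain ⟨v1, hv1⟩ := hdiv v hv
    have hm : ∀ u u1, u - b * u1 ∈ c → (∀ r ∈ maximalIdeal P, r * u ∈ c ⊔ Ideal.span {a * b}) →
        ∀ r ∈ maximalIdeal P, r * u1 ∈ c ⊔ Ideal.span {a} := by
      intro u u1 h1 h2 r hr
      rw [← key]
      have : b * (r * u1) = r * u - r * (u - b * u1) := by ring
      rw [this]
      exact sub_mem (h2 r hr) (Ideal.mem_sup_left (Ideal.mul_mem_left _ _ h1))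
    obtain ⟨r, hr⟩ := h u1 v1 (hm u u1 hu1 hu) (hm v v1 hv1 hv) (fun h1 => hu' (by
      have : u = (u - b * u1) + b * u1 := by ring
      rw [this]
      exact add_mem (Ideal.mem_sup_left hu1) ((key _).2 h1)))
    refine ⟨r, ?_⟩
    have : v - r * u = (v - b * v1) - r * (u - b * u1) + b * (v1 - r * u1) := by ring
    rw [this]
    exact add_mem (sub_mem (Ideal.mem_sup_left hv1) (Ideal.mem_sup_left (Ideal.mul_mem_left _ _ hu1))) ((key _).2 hr)
  · intro h u v hu hv hu'
    obtain ⟨r, hr⟩ := h (b * u) (b * v) (fun r hr => by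
      rw [mul_left_comm]; exact (key _).2 (hu r hr)) (fun r hr => by
      rw [mul_left_comm]; exact (key _).2 (hv r hr)) (fun h1 => hu' ((key _).1 h1))
    refine ⟨r, (key _).1 ?_⟩
    have : b * (v - r * u) = b * v - r * (b * u) := by ring
    rw [this]; exact hr

theorem SS_exch {s : Fin n → P} (i : Fin n) (b : P) (hs : MP s) (ht : MP (Function.update s i b)) (h : WR s)
    (h' : SS (Ideal.span (Set.range s))) : SS (Ideal.span (Set.range (Function.update s i b))) := by
  have hb := ((h.exch i b hs ht).last i).2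
  rw [oth_update, Function.update_self] at hb
  have ha := (h.last i).2
  have hbm : b ∈ maximalIdeal P := by
    have := ht.1 i
    rwa [Function.update_self] at this
  rw [span_update, SS_mul _ b (s i) hb ha hbm, mul_comm, ← SS_mul _ (s i) b ha hb (hs.1 i), ← span_range]
  exact h'

theorem chain (hdim : (maximalIdeal P).height = n) : ∀ k ≤ n, ∀ s s' : Fin n → P, MP s → MP s' →
    (∀ j : Fin n, (j : ℕ) + k < n → s j = s' j) → WR s → SS (Ideal.span (Set.range s)) →
      WR s' ∧ SS (Ideal.span (Set.range s')) := by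
  intro k
  induction k with
  | zero =>
    intro _ s s' _ _ h h1 h2
    have : s = s' := funext fun j => h j (by simp)
    exact this ▸ ⟨h1, h2⟩
  | succ k ih =>
    intro hk s s' hs hs' h h1 h2
    set i : Fin n := ⟨n - k - 1, by omega⟩ with hi
    obtain ⟨z, hz, hz'⟩ := gp s s' hs hs' i hdim
    have h3 := ih (by omega) (Function.update s i z) (Function.update s' i z) hz hz' (fun j hj => by
      by_cases hji : j = i
      · subst hji; rw [Function.update_self, Function.update_self]
      · rw [Function.update_of_ne hji, Function.update_of_ne hji]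
        refine h j ?_
        have : (j : ℕ) ≠ n - k - 1 := fun h => hji (Fin.ext h)
        omega) (h1.exch i z hs hz) (SS_exch i z hs hz h1 h2)
    have h4 : Function.update (Function.update s' i z) i (s' i) = s' := by
      rw [Function.update_idem, Function.update_eq_self]
    have h5 : MP (Function.update (Function.update s' i z) i (s' i)) := by rw [h4]; exact hs'
    have h6 := h3.1.exch i (s' i) hz' h5
    have h7 := SS_exch i (s' i) hz' h5 h3.1 h3.2
    rw [h4] at h6 h7
    exact ⟨h6, h7⟩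

end Pool.Agent.L7h20.GP
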