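import Pool.Agent.L7h20.GP.Gen2
import Pool.Agent.L7h60.GP.Ser

/-!
# General position (project GP, `S_GEN`)
-/

set_option autoImplicit false

namespace Pool.Agent.L7h20.GP

open IsLocalRing Pool.Agent.L7h93.GP

section

variable {P : Type} [CommRing P] [IsRegularLocalRing P] {n : ℕ}

theorem exists_g (J : Ideal P)
    (hJht : ∀ q : Ideal P, q.IsPrime → J ≤ q → (n : ℕ∞) ≤ q.height) (f : Fin (n + 1) → P)
    (hf : Ideal.span (Set.range f) = J) :
    ∀ k ≤ n, ∃ g : Fin (n + 1) → P, Ideal.span (Set.range g) = J ∧ ∀ i : Fin (n + 1), (i : ℕ) < k →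
      (∀ q ∈ (Ideal.span (g '' {j | j < i})).minimalPrimes, g i ∉ q) ∧
      (∀ p ∈ J.minimalPrimes, ∀ c, c ∉ p → c * g i ∉ Ideal.span (g '' {j | j < i}) ⊔ p * J) := by
  classical
  intro k
  induction k with
  | zero => exact fun _ => ⟨f, hf, fun i hi => absurd hi (by omega)⟩
  | succ k ih =>
    intro hk
    obtain ⟨g, hg, hgk⟩ := ih (by omega)
    set i : Fin (n + 1) := ⟨k, by omega⟩ with hi
    set S := Ideal.span (g '' {j | j < i}) with hS
    set B := Ideal.span (g '' {j | i < j}) with hB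
    have hgJ : ∀ j, g j ∈ J := fun j => by rw [← hg]; exact Ideal.subset_span ⟨j, rfl⟩
    have hSJ : S ≤ J := Ideal.span_le.2 (by rintro _ ⟨j, -, rfl⟩; exact hgJ j)
    have hBJ : B ≤ J := Ideal.span_le.2 (by rintro _ ⟨j, -, rfl⟩; exact hgJ j)
    have hJle : ∀ K : Ideal P, S ≤ K → g i ∈ K → B ≤ K → J ≤ K := fun K h1 h2 h3 => by
      rw [← hg]
      refine Ideal.span_le.2 ?_
      rintro _ ⟨j, rfl⟩
      rcases lt_trichotomy j i with h | h | h
      · exact h1 (Ideal.subset_span ⟨j, h, rfl⟩)
      · rw [h]; exact h2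
      · exact h3 (Ideal.subset_span ⟨j, h, rfl⟩)
    -- heights of the minimal primes of `S`
    have hSht : ∀ q ∈ S.minimalPrimes, ¬ J ≤ q := by
      intro q hq hJq
      have h1 := Ideal.height_le_card_of_mem_minimalPrimes_span (Set.toFinite _) hq
      have h2 : (g '' {j | j < i}).ncard ≤ k := by
        refine (Set.ncard_image_le (Set.toFinite _)).trans ?_
        have : {j : Fin (n + 1) | j < i} = ((Finset.Iio i : Finset (Fin (n + 1))) : Set (Fin (n + 1))) := by
          ext; simp
        rw [this, Set.ncard_coe_finset, Fin.card_Iio]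
      have h3 := hJht q hq.1.1 hJq
      have h4 : (n : ℕ∞) ≤ (((g '' {j | j < i}).ncard : ℕ) : ℕ∞) := h3.trans h1
      have h5 : n ≤ (g '' {j | j < i}).ncard := Nat.cast_le.1 h4
      omega
    set F : Finset (Ideal P) := (S.finite_minimalPrimes_of_isNoetherianRing P).toFinset ∪
      (J.finite_minimalPrimes_of_isNoetherianRing P).toFinset with hF
    have hFmem : ∀ q, q ∈ F ↔ q ∈ S.minimalPrimes ∨ q ∈ J.minimalPrimes := fun q => by
      rw [hF, Finset.mem_union, Set.Finite.mem_toFinset, Set.Finite.mem_toFinset]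
    have hFp : ∀ q ∈ F, q.IsPrime := fun q hq => by
      rcases (hFmem q).1 hq with h | h
      · exact h.1.1
      · exact h.1.1
    let N : Ideal P → Ideal P := fun q => if h : q.IsPrime ∧ q ∈ J.minimalPrimes then @NN P _ q S J h.1 else q
    have hN1 : ∀ q, ∀ h : q.IsPrime, q ∈ J.minimalPrimes → N q = @NN P _ q S J h := fun q h h' => dif_pos ⟨h, h'⟩
    have hN2 : ∀ q, q ∉ J.minimalPrimes → N q = q := fun q h => dif_neg fun h' => h h'.2
    obtain ⟨b, hb, hbN⟩ := avoid J N F hFp (by
        intro q hq a ha b hb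
        by_cases h : q ∈ J.minimalPrimes
        · rw [hN1 q (hFp q hq) h]
          have := hFp q hq
          exact ⟨1, (Ideal.ne_top_iff_one q).1 this.ne_top, by
            rw [one_mul]; exact Ideal.mem_sup_right (Ideal.mul_mem_mul ha hb)⟩
        · rw [hN2 q h]; exact q.mul_mem_right _ ha) (by
        intro q hq c hc y hy
        have hqp := hFp q hq
        by_cases h : q ∈ J.minimalPrimes
        · rw [hN1 q hqp h] at hy ⊢
          obtain ⟨d, hd, hdy⟩ := hy
          exact ⟨d * c, fun h => (hqp.mem_or_mem h).elim hd hc, by rw [mul_assoc]; exact hdy⟩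
        · rw [hN2 q h] at hy ⊢
          exact (hqp.mem_or_mem hy).resolve_left hc) (g i) (hgJ i) B hBJ (by
        rintro q hq ⟨h1, h2⟩
        have hqp := hFp q hq
        by_cases h : q ∈ J.minimalPrimes
        · rw [hN1 q hqp h] at h1 h2
          exact hSht q (mem_min_of_le h hSJ (hJle _ le_NN h1 h2)) h.1.2
        · rw [hN2 q h] at h1 h2
          rcases (hFmem q).1 hq with h' | h'
          · exact hSht q h' (hJle _ h'.1.2 h1 h2)
          · exact h h')
    refine ⟨Function.update g i (g i + b), ?_, ?_⟩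
    · refine le_antisymm (Ideal.span_le.2 ?_) (hJle _ ?_ ?_ ?_)
      · rintro _ ⟨j, rfl⟩
        by_cases h : j = i
        · subst h; rw [Function.update_self]; exact J.add_mem (hgJ _) (hBJ hb)
        · rw [Function.update_of_ne h]; exact hgJ j
      · refine Ideal.span_le.2 ?_
        rintro _ ⟨j, hj, rfl⟩
        exact Ideal.subset_span ⟨j, Function.update_of_ne (ne_of_lt hj) _ _⟩
      · have hBle : B ≤ Ideal.span (Set.range (Function.update g i (g i + b))) := by
          refine Ideal.span_le.2 ?_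
          rintro _ ⟨j, hj, rfl⟩
          exact Ideal.subset_span ⟨j, Function.update_of_ne (ne_of_gt hj) _ _⟩
        have h1 : g i + b ∈ Ideal.span (Set.range (Function.update g i (g i + b))) :=
          Ideal.subset_span ⟨i, Function.update_self _ _ _⟩
        have := Ideal.sub_mem _ h1 (hBle hb)
        rwa [add_sub_cancel_right] at this
      · refine Ideal.span_le.2 ?_
        rintro _ ⟨j, hj, rfl⟩
        exact Ideal.subset_span ⟨j, Function.update_of_ne (ne_of_gt hj) _ _⟩
    · intro i' hi'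
      have hle : i' ≤ i := Fin.le_def.2 (by simp [hi]; omega)
      have himg : Function.update g i (g i + b) '' {j | j < i'} = g '' {j | j < i'} := by
        refine Set.image_congr fun j hj => ?_
        exact Function.update_of_ne (ne_of_lt (lt_of_lt_of_le hj hle)) _ _
      rw [himg]
      by_cases h : i' = i
      · rw [h, Function.update_self]
        refine ⟨fun q hq hmem => ?_, fun p hp c hc hcy => ?_⟩
        · have hqJ : q ∉ J.minimalPrimes := fun h' => hSht q hq h'.1.2
          refine hbN q ((hFmem q).2 (Or.inl hq)) ?_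
          rw [hN2 q hqJ]; exact hmem
        · refine hbN p ((hFmem p).2 (Or.inr hp)) ?_
          rw [hN1 p hp.1.1 hp]
          exact ⟨c, hc, hcy⟩
      · rw [Function.update_of_ne h]
        refine hgk i' ?_
        have : (i' : ℕ) ≠ k := fun h' => h (Fin.ext (by simp [hi, h']))
        omega

end

theorem gen_of (hSER : S_SER) : S_GEN := by
  intro P _ _ n hn f hdim hrad
  have := hSER P
  set J := JJ f with hJ
  set I := sat J with hI
  obtain ⟨hmin, hJm, hdim1⟩ := dim_one hdim
  have hmne : ∀ p ∈ J.minimalPrimes, p ≠ maximalIdeal P := fun p hp h => hmin (h ▸ hp)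
  have hmp : (maximalIdeal P).IsPrime := (maximalIdeal.isMaximal P).isPrime
  have hhm : (maximalIdeal P).height = ((n + 1 : ℕ) : ℕ∞) := height_eq hn
  have hJht : ∀ q : Ideal P, q.IsPrime → J ≤ q → (n : ℕ∞) ≤ q.height := by
    intro q hq hJq
    refine height_coh (P := P) (n := n) hn q hq fun q' hq' hlt => ?_
    by_contra hne
    have h1 := hdim1 q' hq' (hJq.trans hlt.le) hne
    exact hlt.not_ge (h1.2 ⟨hq, hJq⟩ hlt.le)
  have hpht : ∀ q : Ideal P, q.IsPrime → q ≠ maximalIdeal P → q.height ≤ (n : ℕ∞) := by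
    intro q hq hne
    have hlt : q < maximalIdeal P := lt_of_le_of_ne (IsLocalRing.le_maximalIdeal hq.ne_top) hne
    have h1 := Ideal.height_add_one_le_of_lt_of_isPrime hlt
    rw [hhm] at h1
    have h2 : q.height + 1 ≤ (n : ℕ∞) + 1 := by exact_mod_cast h1
    exact (ENat.add_le_add_iff_right ENat.one_ne_top).1 h2
  obtain ⟨g, hg, hgi⟩ := exists_g J hJht f rfl n le_rfl
  -- the saturation
  have hIfg : ∃ N : ℕ, ∀ r ∈ maximalIdeal P ^ N, ∀ a ∈ I, r * a ∈ J := by
    obtain ⟨T, hT⟩ : I.FG := IsNoetherian.noetherian I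
    have h1 : ∀ a ∈ T, ∃ k : ℕ, ∀ r ∈ maximalIdeal P ^ k, r * a ∈ J := fun a ha => by
      have : a ∈ I := by rw [← hT]; exact Ideal.subset_span ha
      exact this
    choose! k hk using h1
    refine ⟨∑ a ∈ T, k a, fun r hr a ha => ?_⟩
    have h2 : I ≤ J.colon {r} := by
      rw [← hT]
      refine Ideal.span_le.2 fun a ha => ?_
      show a ∈ J.colon {r}
      rw [Submodule.mem_colon_singleton, smul_eq_mul, mul_comm]
      exact hk a ha r (Ideal.pow_le_pow_right (Finset.single_le_sum (f := k) (fun _ _ => Nat.zero_le _) ha) hr)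
    have h3 := h2 ha
    rw [Submodule.mem_colon_singleton, smul_eq_mul, mul_comm] at h3
    exact h3
  obtain ⟨N, hN⟩ := hIfg
  have hJI : J ≤ I := fun a ha => ⟨0, fun r _ => J.mul_mem_left _ ha⟩
  have hIp : ∀ p ∈ J.minimalPrimes, I ≤ p := by
    intro p hp a ha
    have hpp : p.IsPrime := hp.1.1
    obtain ⟨r, hr, hrp⟩ : ∃ r ∈ maximalIdeal P ^ N, r ∉ p := by
      by_contra hcon
      push Not at hcon
      have hle : maximalIdeal P ^ N ≤ p := hcon
      exact hmne p hp ((maximalIdeal.isMaximal P).eq_of_le hpp.ne_top (hpp.le_of_pow_le hle)).symm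
    exact (hpp.mem_or_mem (hp.1.2 (hN r hr a ha))).resolve_left hrp
  have hImem : ∀ a, (∀ p ∈ J.minimalPrimes, a ∈ p) → a ∈ I := by
    intro a ha
    have h1 : a ∈ J.radical := by
      rw [← Ideal.sInf_minimalPrimes, Ideal.mem_sInf]
      exact fun {p} hp => ha p hp
    obtain ⟨e, he⟩ := h1
    exact hrad ⟨e, hJI he⟩
  -- the ideal `J'`
  set J' := JC g with hJ'
  have hJ'eq : J' = Ideal.span (g '' {j | j < Fin.last n}) := by
    rw [hJ']
    unfold JC
    congr 1
    ext y
    constructor
    · rintro ⟨i, rfl⟩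
      exact ⟨i.castSucc, Fin.castSucc_lt_last i, rfl⟩
    · rintro ⟨j, hj, rfl⟩
      exact ⟨j.castPred (ne_of_lt hj), by simp⟩
  have hJ'card : ∀ q ∈ J'.minimalPrimes, q ≠ maximalIdeal P := by
    rintro q hq rfl
    have h0 : J' = Ideal.span (Set.range fun i : Fin n => g i.castSucc) := rfl
    rw [h0] at hq
    have h1 := Ideal.height_le_card_of_mem_minimalPrimes_span (Set.toFinite _) hq
    have h2 : (Set.range fun i : Fin n => g i.castSucc).ncard ≤ n := by
      rw [← Set.image_univ]
      refine (Set.ncard_image_le (Set.toFinite _)).trans ?_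
      rw [Set.ncard_univ, Nat.card_eq_fintype_card, Fintype.card_fin]
    rw [hhm] at h1
    have h3 : n + 1 ≤ (Set.range fun i : Fin n => g i.castSucc).ncard := Nat.cast_le.1 h1
    omega
  have hJ'ht : ∀ q : Ideal P, q.IsPrime → J' ≤ q → (n : ℕ∞) ≤ q.height := by
    intro q hq hle
    refine height_ge g n (by omega) (fun i hi => (hgi i hi).1) q hq fun j hj => hle ?_
    rw [hJ'eq]
    exact Ideal.subset_span ⟨j, Fin.lt_def.2 (by simpa using hj), rfl⟩
  have hJ'min : ∀ q : Ideal P, q.IsPrime → J' ≤ q → q ≠ maximalIdeal P → q ∈ J'.minimalPrimes := by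
    intro q hq hle hne
    by_contra hnot
    obtain ⟨q', hq', hle'⟩ := Ideal.exists_minimalPrimes_le hle
    have hq'p : q'.IsPrime := hq'.1.1
    have hlt : q' < q := lt_of_le_of_ne hle' fun h => hnot (h ▸ hq')
    have h1 := Ideal.height_add_one_le_of_lt_of_isPrime hlt
    have h2 := hJ'ht q' hq'p hq'.1.2
    have h3 := hpht q hq hne
    have h4 : (n : ℕ∞) + 1 ≤ n := by
      calc (n : ℕ∞) + 1 ≤ q'.height + 1 := by gcongr
        _ ≤ q.height := h1
        _ ≤ n := h3
    have h5 : n + 1 ≤ n := by exact_mod_cast h4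
    omega
  -- the element `s`
  obtain ⟨s, hs, hs'⟩ := avoid_min (maximalIdeal P ^ (N + 1)) J' (by
    intro q hq hle
    have hqp : q.IsPrime := hq.1.1
    exact hJ'card q hq ((maximalIdeal.isMaximal P).eq_of_le hqp.ne_top (hqp.le_of_pow_le hle)).symm)
  -- the element `t`
  have hcol : ∀ p ∈ J.minimalPrimes, ∃ c, c ∉ p ∧ ∀ a ∈ I, c * a ∈ J' := by
    intro p hp
    have hpp : p.IsPrime := hp.1.1
    have hloc : ∀ x ∈ p, ∃ c, c ∉ p ∧ c * x ∈ J := by
      intro x hx
      -- an element of all other minimal primes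
      have hc : ∃ c, c ∉ p ∧ ∀ q ∈ J.minimalPrimes, q ≠ p → c ∈ q := by
        classical
        set F := (J.finite_minimalPrimes_of_isNoetherianRing P).toFinset with hF
        have h3 : ∀ q ∈ F.erase p, ∃ c ∈ q, c ∉ p := fun q hq => by
          by_contra hcon
          push Not at hcon
          have hle : q ≤ p := hcon
          have hqm : q ∈ J.minimalPrimes := (Set.Finite.mem_toFinset _).1 (Finset.mem_of_mem_erase hq)
          exact (Finset.mem_erase.1 hq).1 (le_antisymm hle (hp.2 ⟨hqm.1.1, hqm.1.2⟩ hle))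
        choose! c hc1 hc2 using h3
        refine ⟨∏ q ∈ F.erase p, c q, fun hcon => ?_, fun q hq hqp => ?_⟩
        · obtain ⟨q, hq, hq'⟩ := (hpp.prod_mem_iff).1 hcon
          exact hc2 q hq hq'
        · have hq' : q ∈ F.erase p := Finset.mem_erase.2 ⟨hqp, (Set.Finite.mem_toFinset _).2 hq⟩
          rw [← Finset.mul_prod_erase _ _ hq']
          exact q.mul_mem_right _ (hc1 q hq')
      obtain ⟨c, hcp, hc⟩ := hc
      have hcx : c * x ∈ I := hImem _ fun q hq => by
        by_cases h : q = p
        · rw [h]; exact p.mul_mem_left _ hx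
        · exact q.mul_mem_right _ (hc q hq h)
      obtain ⟨r, hr, hrp⟩ : ∃ r ∈ maximalIdeal P ^ N, r ∉ p := by
        by_contra hcon
        push Not at hcon
        have hle : maximalIdeal P ^ N ≤ p := hcon
        exact hmne p hp ((maximalIdeal.isMaximal P).eq_of_le hpp.ne_top (hpp.le_of_pow_le hle)).symm
      refine ⟨r * c, fun h => (hpp.mem_or_mem h).elim hrp hcp, ?_⟩
      rw [mul_assoc]
      exact hN r hr _ hcx
    have hgJ : ∀ j, g j ∈ J := fun j => by rw [← hg]; exact Ideal.subset_span ⟨j, rfl⟩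
    have hgen := fun x hx => local_gen (P := P) (n := n) (p := p) (J := J) (hpht p hpp (hmne p hp)) hp.1.2 hloc
      (fun i : Fin n => g i.castSucc) (fun i => hgJ _) (by
        rintro i ⟨c, hc, hcy⟩
        refine (hgi i.castSucc (by simp)).2 p hp c hc ?_
        have h1 : (fun i : Fin n => g i.castSucc) '' {j | j < i} = g '' {j | j < i.castSucc} := by
          ext y
          constructor
          · rintro ⟨j, hj, rfl⟩
            exact ⟨j.castSucc, Fin.castSucc_lt_castSucc_iff.2 hj, rfl⟩
          · rintro ⟨j, hj, rfl⟩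
            have hjn : (j : ℕ) < n := lt_trans (Fin.lt_def.1 hj) (by simp)
            exact ⟨⟨j, hjn⟩, Fin.lt_def.1 hj, rfl⟩
        rw [h1] at hcy
        exact hcy) x hx
    -- one element for all of `I`
    obtain ⟨T, hT⟩ : I.FG := IsNoetherian.noetherian I
    have h1 : ∀ a ∈ T, ∃ c, c ∉ p ∧ c * a ∈ J' := fun a ha => by
      have haI : a ∈ I := by rw [← hT]; exact Ideal.subset_span ha
      exact hgen a (hIp p hp haI)
    choose! c hc1 hc2 using h1
    refine ⟨∏ a ∈ T, c a, fun hcon => ?_, fun a ha => ?_⟩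
    · obtain ⟨q, hq, hq'⟩ := (hpp.prod_mem_iff).1 hcon
      exact hc1 q hq hq'
    · have h2 : I ≤ J'.colon {∏ a ∈ T, c a} := by
        rw [← hT]
        refine Ideal.span_le.2 fun a ha => ?_
        show a ∈ J'.colon {∏ a ∈ T, c a}
        rw [Submodule.mem_colon_singleton, smul_eq_mul, mul_comm]
        classical
        rw [← Finset.prod_erase_mul _ _ ha, mul_assoc]
        exact J'.mul_mem_left _ (hc2 a ha)
      have h3 := h2 ha
      rw [Submodule.mem_colon_singleton, smul_eq_mul, mul_comm] at h3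
      exact h3
  have hK : ∃ K : Ideal P, ∀ t, t ∈ K ↔ ∀ a ∈ I, t * a ∈ J' :=
    ⟨{ carrier := {t | ∀ a ∈ I, t * a ∈ J'}
       zero_mem' := fun a _ => by rw [zero_mul]; exact J'.zero_mem
       add_mem' := fun {x y} hx hy a ha => by rw [add_mul]; exact J'.add_mem (hx a ha) (hy a ha)
       smul_mem' := fun c x hx a ha => by rw [smul_eq_mul, mul_assoc]; exact J'.mul_mem_left _ (hx a ha) },
      fun t => Iff.rfl⟩
  obtain ⟨K, hK⟩ := hK
  obtain ⟨t, ht, ht'⟩ := avoid_min K J (by
    intro p hp hle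
    obtain ⟨c, hc, hc'⟩ := hcol p hp
    exact hc (hle ((hK c).2 hc')))
  refine ⟨g, s, ⟨hg, ?_, ?_, ⟨t, ?_, ?_, ?_⟩, ?_⟩⟩
  · have := Ideal.pow_le_pow_right (I := maximalIdeal P) (show 1 ≤ N + 1 by omega) hs
    rwa [pow_one] at this
  · refine exists_pow _ fun Q hQ hle => ?_
    by_contra hne
    exact hs' Q (hJ'min Q hQ (le_sup_left.trans hle) hne) (hle (Ideal.mem_sup_right (Ideal.mem_span_singleton_self _)))
  · intro a ha
    refine hImem a fun p hp => ?_
    have hpp : p.IsPrime := hp.1.1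
    exact (hpp.mem_or_mem (hIp p hp ha)).resolve_left (ht' p hp)
  · exact (hK t).1 ht
  · refine exists_pow _ fun Q hQ hle => ?_
    by_contra hne
    have hg' : JJ g = J := hg
    rw [hg'] at hle
    exact ht' Q (hdim1 Q hQ (le_sup_left.trans hle) hne) (hle (Ideal.mem_sup_right (Ideal.mem_span_singleton_self _)))
  · intro a ha
    exact hN s (Ideal.pow_le_pow_right (by omega) hs) a ha

theorem s_GEN : S_GEN := gen_of Pool.Agent.L7h60.GP.s_SER

end Pool.Agent.L7h20.GP
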