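import Pool.Agent.L7h20.GP.Cm

/-!
# General position (project GP, `S_GEN`), part 1: heights and prime avoidance
-/

set_option autoImplicit false

namespace Pool.Agent.L7h20.GP

open IsLocalRing

section

variable {P : Type} [CommRing P]

theorem height_ge {m : ℕ} (b : Fin m → P) : ∀ k ≤ m,
    (∀ i : Fin m, (i : ℕ) < k → ∀ q ∈ (Ideal.span (b '' {j | j < i})).minimalPrimes, b i ∉ q) →
    ∀ q : Ideal P, q.IsPrime → (∀ j : Fin m, (j : ℕ) < k → b j ∈ q) → (k : ℕ∞) ≤ q.height := by
  intro k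
  induction k with
  | zero => intro _ _ q _ _; simp
  | succ k ih =>
    intro hk hb q hq hmem
    set i : Fin m := ⟨k, hk⟩ with hi
    have hle : Ideal.span (b '' {j | j < i}) ≤ q := by
      refine Ideal.span_le.2 ?_
      rintro _ ⟨j, hj, rfl⟩
      have hj' : (j : ℕ) < k := Fin.lt_def.1 hj
      exact hmem j (by omega)
    obtain ⟨q', hq', hle'⟩ := Ideal.exists_minimalPrimes_le hle
    have hprime : q'.IsPrime := hq'.1.1
    have h1 : (k : ℕ∞) ≤ q'.height := by
      refine ih (by omega) (fun j hj => hb j (by omega)) q' hprime fun j hj => ?_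
      exact hq'.1.2 (Ideal.subset_span ⟨j, Fin.lt_def.2 hj, rfl⟩)
    have hlt : q' < q := lt_of_le_of_ne hle' fun h => hb i (by simp [hi]) q' hq' (h ▸ hmem i (by simp [hi]))
    have h2 := Ideal.height_add_one_le_of_lt_of_isPrime hlt
    calc ((k + 1 : ℕ) : ℕ∞) = (k : ℕ∞) + 1 := by push_cast; rfl
      _ ≤ q'.height + 1 := by gcongr
      _ ≤ _ := h2

variable [IsLocalRing P]

omit [IsLocalRing P] in
theorem avoid_min [IsNoetherianRing P] (I K : Ideal P) (h : ∀ q ∈ K.minimalPrimes, ¬ I ≤ q) :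
    ∃ z ∈ I, ∀ q ∈ K.minimalPrimes, z ∉ q := by
  have hfin := K.finite_minimalPrimes_of_isNoetherianRing P
  have h1 : ¬ ((I : Set P) ⊆ ⋃ J ∈ K.minimalPrimes, (J : Set P)) := by
    intro h'
    obtain ⟨J, hJ, h3⟩ := (Ideal.subset_union_prime_finite hfin (f := id) ⊤ ⊤ (fun J hJ _ _ => hJ.1.1)).1 h'
    exact h J hJ h3
  obtain ⟨z, hz, hz'⟩ := Set.not_subset.1 h1
  simp only [Set.mem_iUnion, not_exists] at hz'
  exact ⟨z, hz, fun q hq h => hz' q hq h⟩

theorem exists_sop [IsNoetherianRing P] {n : ℕ} (hdim : (maximalIdeal P).height = (n + 1 : ℕ)) (b₀ : Fin (n + 1) → P)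
    (h₀ : MP b₀) (p : Ideal P)
    (hp : p.IsPrime) (hmax : ∀ q : Ideal P, q.IsPrime → p < q → q = maximalIdeal P) :
    ∃ b : Fin (n + 1) → P, MP b ∧ ∀ i : Fin (n + 1), (i : ℕ) < n → b i ∈ p := by
  by_contra hcon
  have key : ∀ k ≤ n, ∃ b : Fin (n + 1) → P, MP b ∧ ∀ i : Fin (n + 1), (i : ℕ) < k → b i ∈ p := by
    intro k
    induction k with
    | zero => exact fun _ => ⟨b₀, h₀, fun i hi => absurd hi (by omega)⟩
    | succ k ih =>
      intro hk
      obtain ⟨b, hb, hbp⟩ := ih (by omega)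
      set i : Fin (n + 1) := ⟨k, by omega⟩ with hi
      by_cases h1 : p ∈ (oth b i).minimalPrimes
      · refine absurd ⟨b ∘ Equiv.swap i (Fin.last n), ⟨fun j => hb.1 _, ?_⟩, ?_⟩ hcon
        · rw [(Equiv.swap i (Fin.last n)).surjective.range_comp]; exact hb.2
        · intro j hj
          have hne : Equiv.swap i (Fin.last n) j ≠ i := by
            intro h
            have h2 := (Equiv.swap i (Fin.last n)).symm_apply_apply j
            rw [h, Equiv.symm_swap, Equiv.swap_apply_left] at h2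
            rw [← h2] at hj
            simp at hj
          exact h1.1.2 (Ideal.subset_span ⟨_, hne, rfl⟩)
      · obtain ⟨z, hz, hz'⟩ := avoid_min p (oth b i) (by
          intro q hq hle
          have hqp : q.IsPrime := hq.1.1
          rcases eq_or_lt_of_le hle with h | h
          · exact h1 (h ▸ hq)
          · exact two b i hdim (hmax q hqp h ▸ hq))
        refine ⟨Function.update b i z, one b hb i z (IsLocalRing.le_maximalIdeal hp.ne_top hz) hz', ?_⟩
        intro j hj
        by_cases h : j = i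
        · subst h; rw [Function.update_self]; exact hz
        · rw [Function.update_of_ne h]
          refine hbp j ?_
          have : (j : ℕ) ≠ k := fun h' => h (Fin.ext (by simp [hi, h']))
          omega
  obtain ⟨b, hb, h⟩ := key n le_rfl
  exact hcon ⟨b, hb, h⟩

/-- primes above an ideal with quotient of dimension one -/
theorem dim_one {J : Ideal P} (h : ringKrullDim (P ⧸ J) = 1) :
    maximalIdeal P ∉ J.minimalPrimes ∧ J ≤ maximalIdeal P ∧
      ∀ q : Ideal P, q.IsPrime → J ≤ q → q ≠ maximalIdeal P → q ∈ J.minimalPrimes := by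
  have htop : J ≠ ⊤ := by
    rintro rfl
    have : Subsingleton (P ⧸ (⊤ : Ideal P)) := Ideal.Quotient.subsingleton_iff.2 rfl
    rw [ringKrullDim_eq_bot_of_subsingleton] at h
    exact absurd h (by simp)
  have hJm : J ≤ maximalIdeal P := IsLocalRing.le_maximalIdeal htop
  refine ⟨fun hm => ?_, hJm, ?_⟩
  · rw [ringKrullDim_quotient] at h
    have : Subsingleton (PrimeSpectrum.zeroLocus (R := P) J) := by
      refine ⟨fun a b => ?_⟩
      have h1 : ∀ a : PrimeSpectrum.zeroLocus (R := P) J, a.1.asIdeal = maximalIdeal P := fun a =>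
        le_antisymm (IsLocalRing.le_maximalIdeal a.1.2.ne_top)
          (hm.2 ⟨a.1.2, a.2⟩ (IsLocalRing.le_maximalIdeal a.1.2.ne_top))
      exact Subtype.ext (PrimeSpectrum.ext ((h1 a).trans (h1 b).symm))
    have h2 := Order.krullDim_nonpos_of_subsingleton (α := PrimeSpectrum.zeroLocus (R := P) J)
    rw [h] at h2
    exact absurd h2 (by decide)
  · intro Q hQ hJQ hne
    by_contra hnm
    have hQm : Q < maximalIdeal P := lt_of_le_of_ne (IsLocalRing.le_maximalIdeal hQ.ne_top) hne
    obtain ⟨p, hp, hpQ⟩ := Ideal.exists_minimalPrimes_le hJQ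
    have hpp : p.IsPrime := hp.1.1
    have hIp : J ≤ p := hp.1.2
    have hpQ' : p < Q := lt_of_le_of_ne hpQ fun h => hnm (h ▸ hp)
    set f := Ideal.Quotient.mk J with hf
    have hsurj : Function.Surjective f := Ideal.Quotient.mk_surjective
    have hker : ∀ K : Ideal P, J ≤ K → (K.map f).comap f = K := fun K hK => by
      rw [Ideal.comap_map_of_surjective _ hsurj, ← RingHom.ker_eq_comap_bot, hf, Ideal.mk_ker, sup_eq_left.2 hK]
    have hmono : ∀ K L : Ideal P, J ≤ K → J ≤ L → K < L → K.map f < L.map f := fun K L hK hL h => by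
      refine lt_of_le_of_ne (Ideal.map_mono h.le) fun h2 => h.ne ?_
      rw [← hker K hK, ← hker L hL, h2]
    have hprime : ∀ K : Ideal P, J ≤ K → K.IsPrime → (K.map f).IsPrime := fun K hK hKp =>
      Ideal.map_isPrime_of_surjective hsurj (by rw [hf, Ideal.mk_ker]; exact hK)
    have := hprime p hIp hpp
    have := hprime Q hJQ hQ
    have := hprime (maximalIdeal P) hJm (maximalIdeal.isMaximal P).isPrime
    have h2 := Ideal.height_add_one_le_of_lt_of_isPrime (hmono p Q hIp hJQ hpQ')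
    have h3 := Ideal.height_add_one_le_of_lt_of_isPrime (hmono Q _ hJQ hJm hQm)
    have h4 : (1 : ℕ∞) ≤ (Q.map f).height := le_trans (by simp) h2
    have h5 : (2 : ℕ∞) ≤ ((maximalIdeal P).map f).height := by
      calc (2 : ℕ∞) = 1 + 1 := by norm_num
        _ ≤ (Q.map f).height + 1 := by gcongr
        _ ≤ _ := h3
    have h6 := Ideal.height_le_ringKrullDim_of_isPrime (I := (maximalIdeal P).map f)
    rw [h] at h6
    have h7 : (((maximalIdeal P).map f).height : WithBot ℕ∞) ≤ ((1 : ℕ∞) : WithBot ℕ∞) := h6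
    rw [WithBot.coe_le_coe] at h7
    exact absurd (h5.trans h7) (by norm_num)

end

section

variable {P : Type} [CommRing P]

/-- primes of coheight one in a regular local ring of dimension `n + 1` have height at least `n` -/
theorem height_coh [IsRegularLocalRing P] {n : ℕ} (hn : ringKrullDim P = ((n + 1 : ℕ) : WithBot ℕ∞)) (p : Ideal P)
    (hp : p.IsPrime) (hmax : ∀ q : Ideal P, q.IsPrime → p < q → q = maximalIdeal P) :
    (n : ℕ∞) ≤ p.height := by
  obtain ⟨x, hx⟩ := exists_gens (P := P) hn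
  obtain ⟨b, hb, hbp⟩ := exists_sop (height_eq hn) x ⟨fun i => by rw [← hx]; exact Ideal.subset_span ⟨i, rfl⟩,
    1, by rw [pow_one, hx]⟩ p hp hmax
  refine height_ge b n (by omega) (fun i _ q hq hbi => ?_) p hp hbp
  obtain ⟨y, hy, hy'⟩ := Ideal.exists_mul_mem_of_mem_minimalPrimes hq hbi
  exact hy (s_CM P (n + 1) hn b hb.1 hb.2 i y hy')

/-- unified avoidance lemma -/
theorem avoid (J : Ideal P) (N : Ideal P → Ideal P) (F : Finset (Ideal P)) : (∀ q ∈ F, q.IsPrime) →
    (∀ q ∈ F, ∀ a ∈ q, ∀ b ∈ J, a * b ∈ N q) → (∀ q ∈ F, ∀ c ∉ q, ∀ y, c * y ∈ N q → y ∈ N q) →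
    ∀ y ∈ J, ∀ B ≤ J, (∀ q ∈ F, ¬ (y ∈ N q ∧ B ≤ N q)) → ∃ b ∈ B, ∀ q ∈ F, y + b ∉ N q := by
  classical
  induction F using Finset.strongInduction with
  | H F ih =>
    intro hF h1 h2 y hy B hB h
    rcases F.eq_empty_or_nonempty with rfl | hne
    · exact ⟨0, B.zero_mem, by simp⟩
    obtain ⟨m, hm, hmin⟩ := F.exists_minimal hne
    obtain ⟨b, hb, hyb⟩ := ih (F.erase m) (Finset.erase_ssubset hm) (fun q hq => hF q (Finset.mem_of_mem_erase hq))
      (fun q hq => h1 q (Finset.mem_of_mem_erase hq)) (fun q hq => h2 q (Finset.mem_of_mem_erase hq)) y hy B hB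
      (fun q hq => h q (Finset.mem_of_mem_erase hq))
    by_cases hym : y + b ∈ N m
    · have hBN : ¬ B ≤ N m := fun hBm => h m hm ⟨by
        have := (N m).sub_mem hym (hBm hb)
        rwa [add_sub_cancel_right] at this, hBm⟩
      obtain ⟨b', hb', hb'N⟩ := Set.not_subset.1 hBN
      have hmp := hF m hm
      -- an element of all other primes outside `m`
      have hc : ∃ c, c ∉ m ∧ ∀ q ∈ F.erase m, c ∈ q := by
        have h3 : ∀ q ∈ F.erase m, ∃ c ∈ q, c ∉ m := fun q hq => by
          by_contra hcon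
          push Not at hcon
          have hle : q ≤ m := hcon
          exact (Finset.mem_erase.1 hq).1 (le_antisymm hle (hmin (Finset.mem_of_mem_erase hq) hle))
        choose! c hc1 hc2 using h3
        refine ⟨∏ q ∈ F.erase m, c q, fun hcon => ?_, fun q hq => ?_⟩
        · obtain ⟨q, hq, hq'⟩ := (hmp.prod_mem_iff).1 hcon
          exact hc2 q hq hq'
        · rw [← Finset.mul_prod_erase _ _ hq]
          exact q.mul_mem_right _ (hc1 q hq)
      obtain ⟨c, hcm, hc⟩ := hc
      refine ⟨b + c * b', B.add_mem hb (B.mul_mem_left _ hb'), fun q hq hcon => ?_⟩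
      rw [← add_assoc] at hcon
      by_cases hqm : q = m
      · subst hqm
        have := (N q).sub_mem hcon hym
        rw [add_sub_cancel_left] at this
        exact hb'N (h2 q hm c hcm b' this)
      · have hq' : q ∈ F.erase m := Finset.mem_erase.2 ⟨hqm, hq⟩
        have := (N q).sub_mem hcon (h1 q hq c (hc q hq') b' (hB hb'))
        rw [add_sub_cancel_right] at this
        exact hyb q hq' this
    · refine ⟨b, hb, fun q hq => ?_⟩
      by_cases hqm : q = m
      · subst hqm; exact hym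
      · exact hyb q (Finset.mem_erase.2 ⟨hqm, hq⟩)

/-- the contraction of `S + p J` from the localisation at `p` -/
def NN (p S J : Ideal P) [hp : p.IsPrime] : Ideal P where
  carrier := {y | ∃ c, c ∉ p ∧ c * y ∈ S ⊔ p * J}
  zero_mem' := ⟨1, (Ideal.ne_top_iff_one p).1 hp.ne_top, by rw [mul_zero]; exact zero_mem _⟩
  add_mem' := by
    rintro a b ⟨c, hc, hca⟩ ⟨d, hd, hdb⟩
    refine ⟨c * d, fun h => (hp.mem_or_mem h).elim hc hd, ?_⟩
    have : c * d * (a + b) = d * (c * a) + c * (d * b) := by ring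
    rw [this]
    exact add_mem (Ideal.mul_mem_left _ _ hca) (Ideal.mul_mem_left _ _ hdb)
  smul_mem' := by
    rintro r a ⟨c, hc, hca⟩
    refine ⟨c, hc, ?_⟩
    rw [smul_eq_mul, mul_left_comm]
    exact Ideal.mul_mem_left _ _ hca

theorem mem_NN {p S J : Ideal P} [hp : p.IsPrime] {y : P} : y ∈ NN p S J ↔ ∃ c, c ∉ p ∧ c * y ∈ S ⊔ p * J := Iff.rfl

theorem le_NN {p S J : Ideal P} [hp : p.IsPrime] : S ≤ NN p S J := fun y hy =>
  ⟨1, (Ideal.ne_top_iff_one p).1 hp.ne_top, by rw [one_mul]; exact Ideal.mem_sup_left hy⟩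

/-- Nakayama and Krull -/
theorem mem_min_of_le [IsNoetherianRing P] {p S J : Ideal P} [hp : p.IsPrime] (hpJ : p ∈ J.minimalPrimes) (hS : S ≤ J)
    (h : J ≤ NN p S J) : p ∈ S.minimalPrimes := by
  set R := Localization.AtPrime p
  have hm : p.map (algebraMap P R) = maximalIdeal R := Localization.AtPrime.map_eq_maximalIdeal
  have h1 : J.map (algebraMap P R) ≤ S.map (algebraMap P R) ⊔ maximalIdeal R • J.map (algebraMap P R) := by
    rw [Ideal.map_le_iff_le_comap]
    intro y hy
    obtain ⟨c, hc, hcy⟩ := h hy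
    have h2 : algebraMap P R (c * y) ∈ S.map (algebraMap P R) ⊔ maximalIdeal R • J.map (algebraMap P R) := by
      rw [smul_eq_mul, ← hm, ← Ideal.map_mul, ← Ideal.map_sup]
      exact Ideal.mem_map_of_mem _ hcy
    rw [map_mul] at h2
    have hu : IsUnit (algebraMap P R c) := IsLocalization.map_units R (⟨c, hc⟩ : p.primeCompl)
    exact (Ideal.unit_mul_mem_iff_mem _ hu).1 h2
  have h2 : J.map (algebraMap P R) ≤ S.map (algebraMap P R) := by
    refine Submodule.le_of_le_smul_of_le_jacobson_bot (I := maximalIdeal R) ?_ ?_ h1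
    · exact Ideal.FG.map (IsNoetherian.noetherian J) _
    · exact (IsLocalRing.jacobson_eq_maximalIdeal _ bot_ne_top).ge
  refine ⟨⟨hp, hS.trans hpJ.1.2⟩, ?_⟩
  rintro q ⟨hq, hSq⟩ hqp
  have hJq : J ≤ q := by
    intro y hy
    have h3 : algebraMap P R y ∈ S.map (algebraMap P R) := h2 (Ideal.mem_map_of_mem _ hy)
    rw [IsLocalization.algebraMap_mem_map_algebraMap_iff p.primeCompl] at h3
    obtain ⟨c, hc, hcy⟩ := h3
    exact (hq.mem_or_mem (hSq hcy)).resolve_left fun h => hc (hqp h)
  exact hpJ.2 ⟨hq, hJq⟩ hqp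

end

end Pool.Agent.L7h20.GP
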