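import Pool.Agent.L7h20.GP.Gen1

/-!
# General position (project GP, `S_GEN`), part 2: regular systems of parameters at a prime
-/

set_option autoImplicit false

namespace Pool.Agent.L7h20.GP

open IsLocalRing

/-- `n` elements whose classes in the cotangent space of a regular local ring of dimension `≤ n` are not in the span of
the previous ones generate the maximal ideal -/
theorem span_top {R : Type} [CommRing R] [IsRegularLocalRing R] {n : ℕ}
    (hd : ringKrullDim R ≤ n) (x : Fin n → maximalIdeal R)
    (hx : ∀ i : Fin n, ((x i : R)) ∉ Ideal.span ((fun j => (x j : R)) '' {j | j < i}) ⊔ maximalIdeal R ^ 2) :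
    Submodule.span R (Set.range x) = ⊤ := by
  have hfin : Module.finrank (ResidueField R) (CotangentSpace R) ≤ n := by
    have h1 := (IsRegularLocalRing.iff_finrank_cotangentSpace (R := R)).1 inferInstance
    rw [← h1] at hd
    exact_mod_cast hd
  set v : Fin n → CotangentSpace R := fun i => (maximalIdeal R).toCotangent (x i) with hv
  have hnot : ∀ i : Fin n, v i ∉ Submodule.span (ResidueField R) (v '' {j | j < i}) := by
    intro i hi
    have h1 : v i ∈ (Submodule.span (ResidueField R) (v '' {j | j < i})).restrictScalars R := hi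
    rw [Submodule.restrictScalars_span R (ResidueField R) Ideal.Quotient.mk_surjective] at h1
    have h2 : v '' {j | j < i} = (maximalIdeal R).toCotangent '' (x '' {j | j < i}) := by
      rw [Set.image_image]
    rw [h2, ← Submodule.map_span] at h1
    obtain ⟨w, hw, hw2⟩ := h1
    have h3 : (maximalIdeal R).toCotangent (x i) = (maximalIdeal R).toCotangent w := hw2.symm
    rw [Ideal.toCotangent_eq] at h3
    apply hx i
    have h4 : (w : R) ∈ Ideal.span ((fun j => (x j : R)) '' {j | j < i}) := by
      have h5 : (w : R) ∈ (Submodule.span R (x '' {j | j < i})).map (maximalIdeal R).subtype := ⟨w, hw, rfl⟩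
      rw [Submodule.map_span, Set.image_image] at h5
      exact h5
    have h6 : (x i : R) = w + (x i - w) := by ring
    rw [h6]
    exact add_mem (Ideal.mem_sup_left h4) (Ideal.mem_sup_right h3)
  have hcount : ∀ k ≤ n, k ≤ Module.finrank (ResidueField R)
      (Submodule.span (ResidueField R) (v '' {j : Fin n | (j : ℕ) < k})) := by
    intro k
    induction k with
    | zero => intro _; exact Nat.zero_le _
    | succ k ih =>
      intro hk
      have h1 : Submodule.span (ResidueField R) (v '' {j : Fin n | (j : ℕ) < k}) <
          Submodule.span (ResidueField R) (v '' {j : Fin n | (j : ℕ) < k + 1}) := by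
        refine lt_of_le_of_ne (Submodule.span_mono (Set.image_mono fun j (hj : (j : ℕ) < k) => ?_)) fun h => ?_
        · show (j : ℕ) < k + 1
          omega
        · refine hnot ⟨k, hk⟩ ?_
          have h2 : v ⟨k, hk⟩ ∈ Submodule.span (ResidueField R) (v '' {j : Fin n | (j : ℕ) < k + 1}) :=
            Submodule.subset_span ⟨_, by simp, rfl⟩
          rw [← h] at h2
          exact h2
      exact (ih (by omega)).trans_lt (Submodule.finrank_lt_finrank_of_lt h1)
  have htop : Submodule.span (ResidueField R) (v '' {j : Fin n | (j : ℕ) < n}) = ⊤ := by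
    refine Submodule.eq_top_of_finrank_eq (le_antisymm (Submodule.finrank_le _) ?_)
    exact hfin.trans (hcount n le_rfl)
  have huniv : {j : Fin n | (j : ℕ) < n} = Set.univ := by ext j; simp
  rw [huniv] at htop
  have h7 : v '' Set.univ = (maximalIdeal R).toCotangent '' (Set.range x) := by
    rw [← Set.image_univ, Set.image_image]
  rw [h7] at htop
  exact CotangentSpace.span_image_eq_top_iff.1 htop

/-- `n` elements of `J` that are independent at `p` generate `p` locally, if `J` does -/
theorem local_gen {P : Type} [CommRing P] {n : ℕ} {p J : Ideal P} [hp : p.IsPrime]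
    [IsRegularLocalRing (Localization.AtPrime p)] (hht : p.height ≤ n) (hJp : J ≤ p)
    (hJ : ∀ x ∈ p, ∃ c, c ∉ p ∧ c * x ∈ J) (g : Fin n → P) (hg : ∀ i, g i ∈ J)
    (h : ∀ i : Fin n, g i ∉ NN p (Ideal.span (g '' {j | j < i})) J) (x : P) (hx : x ∈ p) :
    ∃ c, c ∉ p ∧ c * x ∈ Ideal.span (Set.range g) := by
  set R := Localization.AtPrime p with hR
  have hm : p.map (algebraMap P R) = maximalIdeal R := Localization.AtPrime.map_eq_maximalIdeal
  have hmJ : J.map (algebraMap P R) = maximalIdeal R := by
    refine le_antisymm (by rw [← hm]; exact Ideal.map_mono hJp) ?_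
    rw [← hm, Ideal.map_le_iff_le_comap]
    intro y hy
    obtain ⟨c, hc, hcy⟩ := hJ y hy
    have h2 := Ideal.mem_map_of_mem (algebraMap P R) hcy
    rw [map_mul] at h2
    have hu : IsUnit (algebraMap P R c) := IsLocalization.map_units R (⟨c, hc⟩ : p.primeCompl)
    exact (Ideal.unit_mul_mem_iff_mem _ hu).1 h2
  have hgm : ∀ i, algebraMap P R (g i) ∈ maximalIdeal R := fun i => by
    rw [← hm]; exact Ideal.mem_map_of_mem _ (hJp (hg i))
  have hdim : ringKrullDim R ≤ n := by
    rw [IsLocalization.AtPrime.ringKrullDim_eq_height p R]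
    exact_mod_cast hht
  have key := span_top hdim (fun i => ⟨algebraMap P R (g i), hgm i⟩) (by
    intro i hi
    apply h i
    have h1 : (fun j => algebraMap P R (g j)) '' {j | j < i} = algebraMap P R '' (g '' {j | j < i}) := by
      rw [Set.image_image]
    have h2 : algebraMap P R (g i) ∈ (Ideal.span (g '' {j | j < i}) ⊔ p * J).map (algebraMap P R) := by
      rw [Ideal.map_sup, Ideal.map_mul, hm, hmJ, Ideal.map_span, ← h1, ← pow_two]
      exact hi
    rw [IsLocalization.algebraMap_mem_map_algebraMap_iff p.primeCompl] at h2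
    obtain ⟨c, hc, hcy⟩ := h2
    exact ⟨c, hc, hcy⟩)
  have h3 : algebraMap P R x ∈ (Ideal.span (Set.range g)).map (algebraMap P R) := by
    rw [Ideal.map_span]
    have h4 : (⟨algebraMap P R x, hm ▸ Ideal.mem_map_of_mem _ hx⟩ : maximalIdeal R) ∈
        Submodule.span R (Set.range fun i => (⟨algebraMap P R (g i), hgm i⟩ : maximalIdeal R)) := by
      rw [key]; trivial
    have h5 := Submodule.mem_map_of_mem (f := (maximalIdeal R).subtype) h4
    rw [Submodule.map_span, ← Set.range_comp] at h5
    rw [← Set.range_comp]
    exact h5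
  rw [IsLocalization.algebraMap_mem_map_algebraMap_iff p.primeCompl] at h3
  obtain ⟨c, hc, hcy⟩ := h3
  exact ⟨c, hc, hcy⟩

end Pool.Agent.L7h20.GP
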