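import Pool.Agent.L7h20.GP.Basic

/-!
# `S_LIFT` (project GP): lifts between two Koszul complexes which differ in the last element
-/

set_option autoImplicit false

namespace Pool.Agent.L7h20.GP

open ExteriorAlgebra Pool.Agent.L7h93.GP

theorem s_LIFT : S_LIFT := by
  intro P _ n q g a t hqg hmem
  obtain ⟨r, hr⟩ := Submodule.mem_span_range_iff_exists_fun P |>.1 hmem
  set δ : EA P (n + 1) →ₗ[P] EA P (n + 1) :=
    CliffordAlgebra.contractLeft (Q := (0 : QuadraticForm P (Fin (n + 1) → P)))
      (LinearMap.proj (Fin.last n) : (Fin (n + 1) → P) →ₗ[P] P) with hδ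
  set w : Fin (n + 1) → P := Fin.snoc r (t - a) with hw
  have hwl : w (Fin.last n) = t - a := by rw [hw, Fin.snoc_last]
  have hformw : form g w = a * (q (Fin.last n) - g (Fin.last n)) := by
    rw [form_apply, Fin.sum_univ_castSucc, hwl]
    have : ∑ i : Fin n, g i.castSucc * w i.castSucc = q (Fin.last n) * a - g (Fin.last n) * t := by
      rw [← hr]
      refine Finset.sum_congr rfl fun i _ => ?_
      rw [hw, Fin.snoc_castSucc, smul_eq_mul, mul_comm]
    rw [this]; ring
  have hform : form q = form g + (q (Fin.last n) - g (Fin.last n)) •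
      (LinearMap.proj (Fin.last n) : (Fin (n + 1) → P) →ₗ[P] P) := by
    ext i
    simp only [LinearMap.coe_comp, Function.comp_apply, LinearMap.coe_single, LinearMap.add_apply,
      LinearMap.smul_apply, LinearMap.proj_apply, smul_eq_mul]
    rw [form_apply, form_apply]
    simp only [Pi.single_apply, mul_ite, mul_one, mul_zero, Finset.sum_ite_eq', Finset.mem_univ, if_true]
    refine Fin.lastCases ?_ (fun j => ?_) i
    · simp
    · have : (Fin.last n) ≠ j.castSucc := (Fin.castSucc_lt_last j).ne'
      simp [this, hqg j]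
  have hkd : ∀ η : EA P (n + 1), kd q η = kd g η + (q (Fin.last n) - g (Fin.last n)) • δ η := by
    intro η
    simp only [kd, hform, map_add, map_smul, LinearMap.add_apply, LinearMap.smul_apply, hδ]
  refine ⟨a • LinearMap.id + (LinearMap.mulLeft P (ι P w)) ∘ₗ δ, ?_⟩
  refine ⟨?_, ?_, ?_, ?_⟩
  · intro k η hη
    simp only [LinearMap.add_apply, LinearMap.smul_apply, LinearMap.id_apply, LinearMap.comp_apply,
      LinearMap.mulLeft_apply]
    refine add_mem (Submodule.smul_mem _ _ hη) ?_
    cases k with
    | zero => rw [hδ, d_zero _ η hη, mul_zero]; exact zero_mem _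
    | succ k => exact ι_mul_mem k w _ (d_mem _ k η hη)
  · intro η
    simp only [LinearMap.add_apply, LinearMap.smul_apply, LinearMap.id_apply, LinearMap.comp_apply,
      LinearMap.mulLeft_apply]
    have h1 : kd g (ι P w * δ η) = form g w • δ η - ι P w * kd g (δ η) := d_ι_mul _ _ _
    have h2 : δ (kd q η) = - kd g (δ η) := by
      rw [hkd, map_add, map_smul, hδ, d_d, smul_zero, add_zero]
      exact d_comm _ _ _
    rw [map_add, map_smul, h1, h2, hkd, hformw, smul_add, smul_smul, mul_neg]
    abel
  · simp only [LinearMap.add_apply, LinearMap.smul_apply, LinearMap.id_apply, LinearMap.comp_apply,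
      LinearMap.mulLeft_apply]
    rw [hδ, d_one, mul_zero, add_zero]
  · simp only [LinearMap.add_apply, LinearMap.smul_apply, LinearMap.id_apply, LinearMap.comp_apply,
      LinearMap.mulLeft_apply]
    have h0 : δ (ι P w * vol P (n + 1)) = 0 := by rw [ι_mul_vol, map_zero]
    rw [hδ, d_ι_mul, LinearMap.proj_apply, hwl, sub_eq_zero] at h0
    rw [hδ, ← h0, ← add_smul]
    congr 1; ring

end Pool.Agent.L7h20.GP
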