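import Pool.Agent.L7h20.GP.Basic

/-!
# `S_SYM` (project GP): symmetry of the top coefficients of lifts between Koszul complexes
-/

set_option autoImplicit false

namespace Pool.Agent.L7h20.GP

open ExteriorAlgebra Pool.Agent.L7h93.GP

variable {P : Type} [CommRing P] {m : ℕ}

/-- the coefficient of `e_1 ∧ ⋯ ∧ e_m` -/
noncomputable def coef (P : Type) [CommRing P] (m : ℕ) : EA P m →ₗ[P] P :=
  liftAlternating (Pi.single m (Matrix.detRowAlternating : (Fin m → P) [⋀^Fin m]→ₗ[P] P))

theorem coef_vol : coef P m (vol P m) = 1 := by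
  rw [coef, vol, liftAlternating_apply_ιMulti]
  simp only [Pi.single_eq_same]
  change Matrix.det (fun i => (Pi.single i 1 : Fin m → P)) = 1
  have : (fun i => (Pi.single i 1 : Fin m → P)) = (1 : Matrix (Fin m) (Fin m) P) := by
    ext i j; simp [Matrix.one_apply, Pi.single_apply, eq_comm]
  rw [this, Matrix.det_one]

/-- the vectors `e_k`, extended by `0` -/
def ve (P : Type) [CommRing P] (m k : ℕ) : Fin m → P := fun j => if (j : ℕ) = k then 1 else 0

/-- the product `e_s ∧ ⋯ ∧ e_(s+j-1)` -/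
noncomputable def pr (P : Type) [CommRing P] (m s j : ℕ) : EA P m :=
  ((List.range' s j).map fun i => ι P (ve P m i)).prod

theorem pr_zero (s : ℕ) : pr P m s 0 = 1 := by simp [pr]

theorem pr_succ (s j : ℕ) : pr P m s (j + 1) = ι P (ve P m s) * pr P m (s + 1) j := by
  simp [pr, List.range'_succ]

theorem pr_concat (s j : ℕ) : pr P m s (j + 1) = pr P m s j * ι P (ve P m (s + j)) := by
  simp [pr, List.range'_concat]

theorem pr_vol : pr P m 0 m = vol P m := by
  rw [vol, ιMulti_apply, pr]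
  congr 1
  rw [List.ofFn_eq_map, ← List.range_eq_range', ← List.map_coe_finRange_eq_range, List.map_map]
  refine List.map_congr_left fun i _ => ?_
  simp only [Function.comp_apply]
  congr 1
  funext j
  simp [ve, Pi.single_apply, Fin.ext_iff]

theorem pr_mem (s j : ℕ) : pr P m s j ∈ ⋀[P]^j (Fin m → P) := by
  induction j generalizing s with
  | zero => rw [pr_zero]; exact one_mem'
  | succ j ih => rw [pr_succ]; exact ι_mul_mem _ _ _ (ih _)

theorem map_smul_top {M N : Type} [AddCommGroup M] [Module P M] [AddCommGroup N] [Module P N] (I : Ideal P)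
    (L : M →ₗ[P] N) (x : M) (hx : x ∈ I • (⊤ : Submodule P M)) : L x ∈ I • (⊤ : Submodule P N) := by
  have h : L x ∈ (I • (⊤ : Submodule P M)).map L := ⟨x, hx, rfl⟩
  rw [Submodule.map_smul''] at h
  exact Submodule.smul_mono le_rfl le_top h

/-- the ideal of the values of `q` at the places `s ≤ i < t` -/
def J (q : Fin m → P) (s t : ℕ) : Ideal P := Ideal.span {y | ∃ i : ℕ, s ≤ i ∧ i < t ∧ y = form q (ve P m i)}

theorem kd_pr (q : Fin m → P) (s j : ℕ) : kd q (pr P m s j) ∈ J q s (s + j) • (⊤ : Submodule P (EA P m)) := by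
  induction j generalizing s with
  | zero => rw [pr_zero, kd, d_one]; exact zero_mem _
  | succ j ih =>
    rw [pr_succ, kd, d_ι_mul]
    refine sub_mem (Submodule.smul_mem_smul (Ideal.subset_span ⟨s, le_rfl, by omega, rfl⟩) Submodule.mem_top) ?_
    have h1 := map_smul_top _ (LinearMap.mulLeft P (ι P (ve P m s))) _ (ih (s + 1))
    rw [LinearMap.mulLeft_apply] at h1
    refine Submodule.smul_mono ?_ le_rfl h1
    refine Ideal.span_mono ?_
    rintro y ⟨i, h1, h2, h3⟩
    exact ⟨i, by omega, by omega, h3⟩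

theorem ind_top (x : P) (I : Ideal P) (hx : x ∈ I • (⊤ : Submodule P P)) : x ∈ I := by
  rw [smul_eq_mul, Ideal.mul_top] at hx
  exact hx

/-- the value of the product of `θ η` and `ψ ζ` -/
noncomputable def T (θ ψ : EA P m →ₗ[P] EA P m) (η ζ : EA P m) : P := coef P m (θ η * ψ ζ)

theorem rel (X Y f : Fin m → P) (θ ψ : EA P m →ₗ[P] EA P m) (a b c e : P) (hθ : Lifts X f θ a c)
    (hψ : Lifts Y f ψ b e) (k : ℕ) (hk : k < m) :
    form X (ve P m k) * ((-1) ^ k * T θ ψ (pr P m 0 k) (pr P m k (m - k))) +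
      form Y (ve P m k) * ((-1) ^ (k + 1) * T θ ψ (pr P m 0 (k + 1)) (pr P m (k + 1) (m - (k + 1)))) ∈
      J X 0 k ⊔ J Y (k + 1) m := by
  obtain ⟨j, hj⟩ : ∃ j, m = k + j + 1 := ⟨m - k - 1, by omega⟩
  have hmk : m - k = j + 1 := by omega
  have hmk' : m - (k + 1) = j := by omega
  rw [hmk, hmk']
  set E := pr P m 0 k with hE
  set F := pr P m (k + 1) j with hF
  set v := ι P (ve P m k) with hv
  have hE1 : pr P m 0 (k + 1) = E * v := by rw [pr_concat, Nat.zero_add]
  have hF1 : pr P m k (j + 1) = v * F := pr_succ _ _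
  have hz : θ (pr P m 0 (k + 1)) * ψ (pr P m k (j + 1)) = 0 := by
    refine pow_top _ ?_
    have : m + 1 = (k + 1) + (j + 1) := by omega
    rw [exteriorPower, this, pow_add]
    exact Submodule.mul_mem_mul (hθ.deg _ _ (pr_mem _ _)) (hψ.deg _ _ (pr_mem _ _))
  have h1 : kd f (θ (pr P m 0 (k + 1)) * ψ (pr P m k (j + 1))) = 0 := by rw [hz, map_zero]
  rw [kd, d_mul, inv_mem (k + 1) _ (hθ.deg _ _ (pr_mem 0 (k + 1)))] at h1
  change kd f (θ (pr P m 0 (k + 1))) * _ + _ * kd f (ψ (pr P m k (j + 1))) = 0 at h1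
  rw [hθ.comm, hψ.comm] at h1
  have h2 : kd X (pr P m 0 (k + 1)) = kd X E * v + ((-1) ^ k * form X (ve P m k)) • E := by
    rw [hE1, kd, d_mul, inv_mem k E (pr_mem 0 k)]
    congr 1
    have : CliffordAlgebra.contractLeft (form X) v = algebraMap P (EA P m) (form X (ve P m k)) :=
      CliffordAlgebra.contractLeft_ι (Q := (0 : QuadraticForm P (Fin m → P))) _ _
    rw [this, smul_mul_assoc, ← Algebra.commutes, ← Algebra.smul_def, smul_smul]
  have h3 : kd Y (pr P m k (j + 1)) = form Y (ve P m k) • F - v * kd Y F := by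
    rw [hF1, kd, d_ι_mul]
  rw [h2, h3, map_add, map_smul, map_sub, map_smul, add_mul, mul_sub] at h1
  have h4 := congrArg (coef P m) h1
  rw [map_zero, map_add, map_add, map_sub] at h4
  simp only [smul_mul_assoc, mul_smul_comm, map_smul, smul_eq_mul] at h4
  have m1 : coef P m (θ (kd X E * v) * ψ (pr P m k (j + 1))) ∈ J X 0 k := by
    have := kd_pr X 0 k
    rw [Nat.zero_add] at this
    have h := map_smul_top _ ((coef P m) ∘ₗ (LinearMap.mulRight P (ψ (pr P m k (j + 1)))) ∘ₗ θ ∘ₗ (LinearMap.mulRight P v)) _ this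
    exact ind_top _ _ h
  have m2 : coef P m (θ (pr P m 0 (k + 1)) * ψ (v * kd Y F)) ∈ J Y (k + 1) m := by
    have := kd_pr Y (k + 1) j
    have e1 : k + 1 + j = m := by omega
    rw [e1] at this
    have h := map_smul_top _ ((coef P m) ∘ₗ (LinearMap.mulLeft P (θ (pr P m 0 (k + 1)))) ∘ₗ ψ ∘ₗ (LinearMap.mulLeft P v)) _ this
    exact ind_top _ _ h
  have h5 : form X (ve P m k) * ((-1) ^ k * T θ ψ E (pr P m k (j + 1))) +
      form Y (ve P m k) * ((-1) ^ (k + 1) * T θ ψ (pr P m 0 (k + 1)) F) =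
      -coef P m (θ (kd X E * v) * ψ (pr P m k (j + 1))) +
      (-1) ^ (k + 1) * coef P m (θ (pr P m 0 (k + 1)) * ψ (v * kd Y F)) := by
    simp only [T]
    linear_combination h4
  rw [h5]
  exact add_mem (neg_mem (Ideal.mem_sup_left m1)) (Ideal.mul_mem_left _ _ (Ideal.mem_sup_right m2))

theorem form_ve (q : Fin m → P) (k : Fin m) : form q (ve P m k) = q k := by
  rw [form_apply]
  simp only [ve, Fin.val_inj, mul_ite, mul_one, mul_zero, Finset.sum_ite_eq', Finset.mem_univ, if_true]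

theorem s_SYM : S_SYM := by
  intro P _ m x f N L θ ψ a b c e hθ hψ
  set X : Fin m → P := fun i => x i ^ N with hX
  set Y : Fin m → P := fun i => x i ^ L with hY
  set S : Ideal P := Ideal.span (Set.range fun i => x i ^ (N + L)) with hS
  set H : ℕ → P := fun k => (-1) ^ k * T θ ψ (pr P m 0 k) (pr P m k (m - k)) with hH
  set XX : ℕ → P := fun k => form X (ve P m k) with hXX
  set YY : ℕ → P := fun k => form Y (ve P m k) with hYY
  have hXY : ∀ i, i < m → XX i * YY i ∈ S := by
    intro i hi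
    have h1 : XX i = x ⟨i, hi⟩ ^ N := form_ve X ⟨i, hi⟩
    have h2 : YY i = x ⟨i, hi⟩ ^ L := form_ve Y ⟨i, hi⟩
    rw [h1, h2, ← pow_add]
    exact Ideal.subset_span ⟨_, rfl⟩
  have hJX : ∀ k, k < m → ∀ y ∈ J X 0 k, y * ∏ i ∈ Finset.range k, YY i ∈ S := by
    intro k hk y hy
    refine Submodule.span_induction (p := fun y _ => y * ∏ i ∈ Finset.range k, YY i ∈ S) ?_ ?_ ?_ ?_ hy
    · rintro _ ⟨i, -, hi, rfl⟩
      rw [← Finset.mul_prod_erase _ _ (Finset.mem_range.2 hi), ← mul_assoc]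
      exact Ideal.mul_mem_right _ _ (hXY i (by omega))
    · rw [zero_mul]; exact zero_mem _
    · intro y z _ _ hy hz; rw [add_mul]; exact add_mem hy hz
    · intro r y _ hy; rw [smul_eq_mul, mul_assoc]; exact Ideal.mul_mem_left _ _ hy
  have hJY : ∀ k, k < m → ∀ y ∈ J Y (k + 1) m, y * ∏ i ∈ Finset.Ico (k + 1) m, XX i ∈ S := by
    intro k hk y hy
    refine Submodule.span_induction (p := fun y _ => y * ∏ i ∈ Finset.Ico (k + 1) m, XX i ∈ S) ?_ ?_ ?_ ?_ hy
    · rintro _ ⟨i, hi1, hi, rfl⟩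
      rw [← Finset.mul_prod_erase _ _ (Finset.mem_Ico.2 ⟨hi1, hi⟩), ← mul_assoc]
      refine Ideal.mul_mem_right _ _ ?_
      have := hXY i (by omega)
      rw [mul_comm] at this
      exact this
    · rw [zero_mul]; exact zero_mem _
    · intro y z _ _ hy hz; rw [add_mul]; exact add_mem hy hz
    · intro r y _ hy; rw [smul_eq_mul, mul_assoc]; exact Ideal.mul_mem_left _ _ hy
  set G : ℕ → P := fun k => H k * (∏ i ∈ Finset.range k, YY i) * ∏ i ∈ Finset.Ico k m, XX i with hG
  have hGG : ∀ k, k < m → G k + G (k + 1) ∈ S := by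
    intro k hk
    have h1 : G k + G (k + 1) = (XX k * H k + YY k * H (k + 1)) * (∏ i ∈ Finset.range k, YY i) *
        ∏ i ∈ Finset.Ico (k + 1) m, XX i := by
      simp only [hG]
      rw [Finset.prod_range_succ, Finset.prod_eq_prod_Ico_succ_bot hk]
      ring
    rw [h1]
    have h2 := rel X Y f θ ψ a b c e hθ hψ k hk
    obtain ⟨y, hy, z, hz, hyz⟩ := Submodule.mem_sup.1 h2
    have h3 : XX k * H k + YY k * H (k + 1) = y + z := hyz.symm
    rw [h3, add_mul, add_mul]
    refine add_mem (Ideal.mul_mem_right _ _ (hJX k hk y hy)) ?_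
    rw [mul_right_comm]
    exact Ideal.mul_mem_right _ _ (hJY k hk z hz)
  have hind : ∀ k, k ≤ m → G 0 - (-1) ^ k * G k ∈ S := by
    intro k
    induction k with
    | zero => intro _; rw [pow_zero, one_mul, sub_self]; exact zero_mem _
    | succ k ih =>
      intro hk
      have h1 := ih (by omega)
      have h2 := hGG k (by omega)
      have : G 0 - (-1) ^ (k + 1) * G (k + 1) = (G 0 - (-1) ^ k * G k) + (-1) ^ k * (G k + G (k + 1)) := by ring
      rw [this]
      exact add_mem h1 (Ideal.mul_mem_left _ _ h2)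
  have hprodX : ∏ i ∈ Finset.Ico 0 m, XX i = ∏ i, x i ^ N := by
    rw [← Finset.range_eq_Ico, ← Fin.prod_univ_eq_prod_range]
    exact Finset.prod_congr rfl fun i _ => form_ve X i
  have hprodY : ∏ i ∈ Finset.range m, YY i = ∏ i, x i ^ L := by
    rw [← Fin.prod_univ_eq_prod_range]
    exact Finset.prod_congr rfl fun i _ => form_ve Y i
  have hG0 : G 0 = a * e * ∏ i, x i ^ N := by
    simp only [hG, hH]
    rw [hprodX, Nat.sub_zero, pow_zero, one_mul, Finset.range_zero, Finset.prod_empty, mul_one]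
    congr 1
    rw [T, pr_zero, pr_vol, hθ.bot, hψ.top, smul_mul_smul_comm, one_mul, map_smul, coef_vol, smul_eq_mul, mul_one]
  have hGm : G m = (-1) ^ m * (b * c * ∏ i, x i ^ L) := by
    simp only [hG, hH]
    rw [hprodY, Finset.Ico_self, Finset.prod_empty, mul_one, Nat.sub_self, mul_assoc]
    congr 2
    rw [T, pr_zero, pr_vol, hθ.top, hψ.bot, smul_mul_smul_comm, mul_one, map_smul, coef_vol, smul_eq_mul, mul_one,
      mul_comm]
  have h := hind m le_rfl
  rw [hG0, hGm, ← mul_assoc, ← mul_pow, neg_one_mul, neg_neg, one_pow, one_mul] at h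
  have := neg_mem h
  rw [neg_sub] at this
  exact this

end Pool.Agent.L7h20.GP
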